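import Pool.Agent.Lib.H87.HopfKC.Gauge
import Pool.Agent.Lib.H69.Hopf.Alt
import Pool.Agent.Lib.HopfSix.Final

/-!
# Complex sectional curvature in dimension six: reduction to the Einstein gauge

`kc R z w` is the (real) value `R(z, w, z̄, w̄)` for complex vectors `z`, `w`.

`reduce_nonneg`: if the Gauss–Bonnet integrand is nonnegative for every curvature tensor with
nonnegative complex sectional curvature and Ricci tensor `5 δ`, then it is nonnegative for every
curvature tensor with nonnegative complex sectional curvature.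
-/

open Matrix Finset
open Pool.Agent.H69Hopf

namespace HopfKC

/-- The value `R(z, w, z̄, w̄)` (real part; the imaginary part vanishes). -/
noncomputable def kc (R : Arr 6) (z w : Fin 6 → ℂ) : ℝ :=
  (∑ i, ∑ j, ∑ k, ∑ l, (R i j k l : ℂ) * z i * w j * (starRingEnd ℂ) (z k) *
    (starRingEnd ℂ) (w l)).re

/-- Nonnegative complex sectional curvature. -/
def KCnonneg (R : Arr 6) : Prop := ∀ z w : Fin 6 → ℂ, 0 ≤ kc R z w

theorem kc_eq (R : Arr 6) (z w : Fin 6 → ℂ) :
    kc R z w =
      ev R (fun i => (z i).re) (fun i => (w i).re) (fun i => (z i).re) (fun i => (w i).re) -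
      ev R (fun i => (z i).re) (fun i => (w i).re) (fun i => (z i).im) (fun i => (w i).im) -
      ev R (fun i => (z i).im) (fun i => (w i).im) (fun i => (z i).re) (fun i => (w i).re) +
      ev R (fun i => (z i).im) (fun i => (w i).im) (fun i => (z i).im) (fun i => (w i).im) +
      ev R (fun i => (z i).re) (fun i => (w i).im) (fun i => (z i).re) (fun i => (w i).im) +
      ev R (fun i => (z i).re) (fun i => (w i).im) (fun i => (z i).im) (fun i => (w i).re) +
      ev R (fun i => (z i).im) (fun i => (w i).re) (fun i => (z i).re) (fun i => (w i).im) +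
      ev R (fun i => (z i).im) (fun i => (w i).re) (fun i => (z i).im) (fun i => (w i).re) := by
  unfold kc
  simp only [ev_quad]
  simp only [← Finset.sum_add_distrib, ← Finset.sum_sub_distrib]
  have h : (∑ i, ∑ j, ∑ k, ∑ l, (R i j k l : ℂ) * z i * w j * (starRingEnd ℂ) (z k) *
      (starRingEnd ℂ) (w l)) = ∑ q : Fin 6 × Fin 6 × Fin 6 × Fin 6,
      (R q.1 q.2.1 q.2.2.1 q.2.2.2 : ℂ) * z q.1 * w q.2.1 * (starRingEnd ℂ) (z q.2.2.1) *
      (starRingEnd ℂ) (w q.2.2.2) := by
    simp only [Fintype.sum_prod_type]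
  rw [h, Complex.re_sum]
  refine Finset.sum_congr rfl fun q _ => ?_
  simp only [Complex.mul_re, Complex.mul_im, Complex.conj_re, Complex.conj_im, Complex.ofReal_re,
    Complex.ofReal_im]
  ring

theorem comb_re (g : Fin 6 → (Fin 6 → ℝ)) (z : Fin 6 → ℂ) :
    (fun k => (∑ i, z i * (g i k : ℂ)).re) = comb g (fun i => (z i).re) := by
  funext k
  simp [comb, Complex.re_sum]

theorem comb_im (g : Fin 6 → (Fin 6 → ℝ)) (z : Fin 6 → ℂ) :
    (fun k => (∑ i, z i * (g i k : ℂ)).im) = comb g (fun i => (z i).im) := by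
  funext k
  simp [comb, Complex.im_sum]

theorem kc_pull (R : Arr 6) (g : Fin 6 → (Fin 6 → ℝ)) (z w : Fin 6 → ℂ) :
    kc (pull g R) z w = kc R (fun k => ∑ i, z i * (g i k : ℂ)) (fun k => ∑ i, w i * (g i k : ℂ)) := by
  rw [kc_eq, kc_eq, comb_re, comb_re, comb_im, comb_im]
  simp only [ev_comb]

theorem kc_add_smul (R Q : Arr 6) (t : ℝ) (z w : Fin 6 → ℂ) :
    kc (fun i j k l => R i j k l + t * Q i j k l) z w = kc R z w + t * kc Q z w := by
  unfold kc
  have h : ∀ S : Arr 6, (∑ i, ∑ j, ∑ k, ∑ l, (S i j k l : ℂ) * z i * w j *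
      (starRingEnd ℂ) (z k) * (starRingEnd ℂ) (w l)) =
      ∑ q : Fin 6 × Fin 6 × Fin 6 × Fin 6,
      (S q.1 q.2.1 q.2.2.1 q.2.2.2 : ℂ) * z q.1 * w q.2.1 * (starRingEnd ℂ) (z q.2.2.1) *
      (starRingEnd ℂ) (w q.2.2.2) := by
    intro S
    simp only [Fintype.sum_prod_type]
  rw [h, h, h, Complex.re_sum, Complex.re_sum, Complex.re_sum, Finset.mul_sum,
    ← Finset.sum_add_distrib]
  refine Finset.sum_congr rfl fun q _ => ?_
  simp only [Complex.mul_re, Complex.mul_im, Complex.conj_re, Complex.conj_im, Complex.ofReal_re,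
    Complex.ofReal_im]
  ring

theorem kc_real (R : Arr 6) (x y : Fin 6 → ℝ) :
    kc R (fun i => (x i : ℂ)) (fun i => (y i : ℂ)) = ev R x y x y := by
  rw [kc_eq]
  simp only [Complex.ofReal_re, Complex.ofReal_im]
  have hz : ∀ a b c : Fin 6 → ℝ, ev R (fun _ => 0) a b c = 0 := by
    intro a b c; simp [ev]
  have hz2 : ∀ a b c : Fin 6 → ℝ, ev R a (fun _ => 0) b c = 0 := by
    intro a b c; simp [ev]
  have hz3 : ∀ a b c : Fin 6 → ℝ, ev R a b (fun _ => 0) c = 0 := by
    intro a b c; simp [ev]
  simp only [hz, hz2, hz3]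
  ring

theorem cs_complex (x y u v : Fin 6 → ℝ) :
    (dot x u + dot y v) ^ 2 + (dot y u - dot x v) ^ 2 ≤
      (dot x x + dot y y) * (dot u u + dot v v) := by
  set a := dot x u + dot y v with ha
  set b := dot y u - dot x v with hb
  set s := dot u u + dot v v with hs
  have hs0 : 0 ≤ s := add_nonneg (dot_self_nonneg u) (dot_self_nonneg v)
  have h0 : 0 ≤ ∑ i, ((s * x i - (a * u i - b * v i)) ^ 2 + (s * y i - (a * v i + b * u i)) ^ 2) :=
    Finset.sum_nonneg fun i _ => add_nonneg (sq_nonneg _) (sq_nonneg _)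
  have he : ∑ i, ((s * x i - (a * u i - b * v i)) ^ 2 + (s * y i - (a * v i + b * u i)) ^ 2) =
      s ^ 2 * (dot x x + dot y y) - 2 * s * (a * (dot x u + dot y v) + b * (dot y u - dot x v)) +
        (a ^ 2 + b ^ 2) * (dot u u + dot v v) := by
    unfold dot
    simp only [Finset.mul_sum, ← Finset.sum_add_distrib, ← Finset.sum_sub_distrib]
    refine Finset.sum_congr rfl fun i _ => ?_
    ring
  rw [he, ← ha, ← hb, ← hs] at h0
  rcases hs0.eq_or_lt with h | h
  · have hu : ∀ i, u i = 0 ∧ v i = 0 := by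
      intro i
      have h1 : u i * u i ≤ dot u u :=
        Finset.single_le_sum (f := fun i => u i * u i) (fun k _ => mul_self_nonneg _)
          (Finset.mem_univ i)
      have h2 : v i * v i ≤ dot v v :=
        Finset.single_le_sum (f := fun i => v i * v i) (fun k _ => mul_self_nonneg _)
          (Finset.mem_univ i)
      have h3 := dot_self_nonneg u
      have h4 := dot_self_nonneg v
      constructor
      · nlinarith [mul_self_nonneg (u i)]
      · nlinarith [mul_self_nonneg (v i)]
    have ha0 : a = 0 := by rw [ha]; simp [dot, hu]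
    have hb0 : b = 0 := by rw [hb]; simp [dot, hu]
    rw [ha0, hb0, ← h]; simp
  · have h1 : 0 ≤ s * ((dot x x + dot y y) * s - (a ^ 2 + b ^ 2)) := by nlinarith
    have h2 := nonneg_of_mul_nonneg_right h1 h
    linarith

/-- The constant curvature tensor has nonnegative complex sectional curvature. -/
theorem kc_idA_nonneg (z w : Fin 6 → ℂ) : 0 ≤ kc (idA 6) z w := by
  rw [kc_eq]
  simp only [ev_idA]
  have h := cs_complex (fun i => (z i).re) (fun i => (z i).im) (fun i => (w i).re)
    (fun i => (w i).im)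
  generalize (fun i => (z i).re) = x at *
  generalize (fun i => (z i).im) = y at *
  generalize (fun i => (w i).re) = u at *
  generalize (fun i => (w i).im) = v at *
  rw [dot_comm u x, dot_comm v u, dot_comm y x, dot_comm v x, dot_comm u y, dot_comm v y]
  nlinarith [h]

theorem gb_pull (R : Arr 6) (g : Matrix (Fin 6) (Fin 6) ℝ) :
    HopfSix.gaussBonnet (pull (fun i => g i) R) = g.det ^ 2 * HopfSix.gaussBonnet R := by
  have h := mgb_pull (m := 3) (fun _ => R) (fun i => g i)
  have h3 : ∀ P : Arr (2 * 3), mgb (fun _ : Fin 3 => P) = HopfSix.gaussBonnet P := by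
    intro P
    rw [← gaussBonnet_eq_mgb]
    unfold gaussBonnet HopfSix.gaussBonnet
    refine Finset.sum_congr rfl fun σ _ => Finset.sum_congr rfl fun τ _ => ?_
    rw [Fin.prod_univ_three]
    rfl
  rw [h3 R] at h
  exact (h3 _).symm.trans h

theorem gb_smul (R : Arr 6) (t : ℝ) :
    HopfSix.gaussBonnet (fun i j k l => t * R i j k l) = t ^ 3 * HopfSix.gaussBonnet R := by
  unfold HopfSix.gaussBonnet
  simp only [Finset.mul_sum]
  refine Finset.sum_congr rfl fun σ _ => Finset.sum_congr rfl fun τ _ => ?_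
  ring

theorem continuous_gb (R Q : Arr 6) :
    Continuous fun t : ℝ => HopfSix.gaussBonnet (fun i j k l => R i j k l + t * Q i j k l) := by
  unfold HopfSix.gaussBonnet
  fun_prop

theorem comb_mul (g h : Matrix (Fin 6) (Fin 6) ℝ) (i : Fin 6) :
    comb (fun i => g i) (h i) = (h * g) i := by
  funext k
  rw [Matrix.mul_apply]
  rfl

theorem idA_algCurv : IsAlgCurv (idA 6) := by
  refine ⟨?_, ?_, ?_⟩
  · intro i j k l
    unfold idA
    ring
  · intro i j k l
    unfold idA
    simp only [eq_comm (a := k) (b := i), eq_comm (a := l) (b := j), eq_comm (a := k) (b := j),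
      eq_comm (a := l) (b := i)]
    ring
  · intro i j k l
    unfold idA
    simp only [eq_comm (a := j) (b := i), eq_comm (a := k) (b := i), eq_comm (a := k) (b := j)]
    ring

theorem algCurv_add_smul {R Q : Arr 6} (hR : IsAlgCurv R) (hQ : IsAlgCurv Q) (t : ℝ) :
    IsAlgCurv (fun i j k l => R i j k l + t * Q i j k l) := by
  refine ⟨?_, ?_, ?_⟩
  · intro i j k l
    rw [hR.skew, hQ.skew]
    ring
  · intro i j k l
    rw [hR.pair, hQ.pair]
  · intro i j k l
    linear_combination hR.bianchi i j k l + t * hQ.bianchi i j k l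

theorem algCurv_smul {R : Arr 6} (hR : IsAlgCurv R) (t : ℝ) :
    IsAlgCurv (fun i j k l => t * R i j k l) := by
  refine ⟨?_, ?_, ?_⟩
  · intro i j k l
    rw [hR.skew]
    ring
  · intro i j k l
    rw [hR.pair]
  · intro i j k l
    linear_combination t * hR.bianchi i j k l

theorem kc_smul (R : Arr 6) (t : ℝ) (z w : Fin 6 → ℂ) :
    kc (fun i j k l => t * R i j k l) z w = t * kc R z w := by
  have h := kc_add_smul (fun _ _ _ _ => 0) R t z w
  have h0 : kc (fun _ _ _ _ => 0) z w = 0 := by simp [kc]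
  rw [h0, zero_add] at h
  rw [← h]
  simp only [zero_add]

/-- Einstein gauge: after a volume preserving change of frame, `R + ε` has Ricci tensor a positive
multiple of the metric. -/
theorem exists_gauge {R : Arr 6} (hA : IsAlgCurv R) (hK : KCnonneg R) {ε : ℝ} (hε : 0 < ε) :
    ∃ (g : Matrix (Fin 6) (Fin 6) ℝ) (r : ℝ), g.det = 1 ∧ 0 < r ∧
      ∀ i j, ricc (pull (fun i => g i) (fun i j k l => R i j k l + ε * idA 6 i j k l)) i j =
        if i = j then r else 0 := by
  have hsec : ∀ x y, 0 ≤ ev R x y x y := fun x y => by rw [← kc_real]; exact hK _ _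
  obtain ⟨g, hg, hmin⟩ := exists_min R hε hsec
  set Q : Arr 6 := fun i j k l => R i j k l + ε * idA 6 i j k l with hQ
  have hQA : IsAlgCurv Q := algCurv_add_smul hA idA_algCurv ε
  set P := pull (fun i => g i) Q with hP
  have hPA : IsAlgCurv P := pull_algCurv _ hQA
  have hPh : ∀ h : Matrix (Fin 6) (Fin 6) ℝ, Phi P (hᵀ * h) (hᵀ * h) =
      Phi Q ((h * g)ᵀ * (h * g)) ((h * g)ᵀ * (h * g)) := by
    intro h
    have h1 := Phi_gram P (fun i => h i)
    have h2 := Phi_gram Q (fun i => (h * g) i)
    refine h1.trans (Eq.trans ?_ h2.symm)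
    refine Finset.sum_congr rfl fun i _ => Finset.sum_congr rfl fun j _ => ?_
    rw [hP, ← ev_comb, comb_mul, comb_mul]
  have hP1 : Phi P 1 1 = Phi Q (gᵀ * g) (gᵀ * g) := by
    have := hPh 1
    simpa using this
  have hE := einstein_of_min hPA (fun h hh => by
    rw [hPh h, hP1]
    exact hmin (h * g) (by rw [Matrix.det_mul, hh, hg, one_mul]))
  refine ⟨g, ricc P 0 0, hg, ?_, hE⟩
  have htot : Phi P 1 1 = 6 * ricc P 0 0 := by
    rw [Phi_one_right]
    have : ∀ a c, ricc P a c * (1 : Matrix (Fin 6) (Fin 6) ℝ) a c =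
        if a = c then ricc P 0 0 else 0 := by
      intro a c
      rw [hE a c, Matrix.one_apply]
      split_ifs <;> simp
    simp only [this, Finset.sum_ite_eq, Finset.mem_univ, if_true, Finset.sum_const,
      Finset.card_univ, Fintype.card_fin, nsmul_eq_mul]
    norm_num
  have hpos : 0 < Phi P 1 1 := by
    have hpsd : (gᵀ * g).PosSemidef := by
      have := Matrix.posSemidef_conjTranspose_mul_self g
      rwa [Matrix.conjTranspose_eq_transpose_of_trivial] at this
    have hdet : (gᵀ * g).det = 1 := by rw [Matrix.det_mul, Matrix.det_transpose, hg, one_mul]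
    have h1 := Phi_gram R (fun i => g i)
    have hnn : 0 ≤ Phi R (gᵀ * g) (gᵀ * g) := by
      refine le_of_le_of_eq ?_ h1.symm
      exact Finset.sum_nonneg fun i _ => Finset.sum_nonneg fun j _ => hsec _ _
    rw [hP1, hQ, Phi_add_smul_arr, Phi_idA]
    have := mul_pos hε (e2_pos hpsd hdet)
    linarith
  rw [htot] at hpos
  linarith

/-- Reduction to the Einstein gauge. -/
theorem reduce_nonneg
    (H : ∀ R : Arr 6, IsAlgCurv R → KCnonneg R →
      (∀ i j, ricc R i j = if i = j then 5 else 0) → 0 ≤ HopfSix.gaussBonnet R)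
    (R : Arr 6) (hA : IsAlgCurv R) (hK : KCnonneg R) : 0 ≤ HopfSix.gaussBonnet R := by
  have hpos : ∀ ε : ℝ, 0 < ε →
      0 ≤ HopfSix.gaussBonnet (fun i j k l => R i j k l + ε * idA 6 i j k l) := by
    intro ε hε
    obtain ⟨g, r, hg, hr, hE⟩ := exists_gauge hA hK hε
    set Q : Arr 6 := fun i j k l => R i j k l + ε * idA 6 i j k l with hQ
    have hQA : IsAlgCurv Q := algCurv_add_smul hA idA_algCurv ε
    have hQK : KCnonneg Q := by
      intro z w
      rw [hQ, kc_add_smul]
      have := mul_nonneg hε.le (kc_idA_nonneg z w)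
      have := hK z w
      linarith
    set P := pull (fun i => g i) Q with hP
    have hgb : HopfSix.gaussBonnet P = HopfSix.gaussBonnet Q := by
      rw [hP, gb_pull, hg, one_pow, one_mul]
    have h1 := H (fun i j k l => (5 / r) * P i j k l) (algCurv_smul (pull_algCurv _ hQA) _)
      (by
        intro z w
        rw [kc_smul, hP, kc_pull]
        exact mul_nonneg (by positivity) (hQK _ _))
      (by
        intro i j
        have h2 : ricc (fun i j k l => (5 / r) * P i j k l) i j = (5 / r) * ricc P i j := by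
          unfold ricc
          rw [Finset.mul_sum]
        rw [h2, hE i j]
        split_ifs
        · field_simp
        · simp)
    rw [gb_smul, hgb] at h1
    have h3 : 0 < (5 / r) ^ 3 := by positivity
    exact nonneg_of_mul_nonneg_right h1 h3
  have h := HopfSix.nonneg_of_pos _ (continuous_gb R (idA 6)) hpos
  simpa using h

/-- The same for nonpositive complex sectional curvature. -/
theorem reduce_nonpos
    (H : ∀ R : Arr 6, IsAlgCurv R → KCnonneg R →
      (∀ i j, ricc R i j = if i = j then 5 else 0) → 0 ≤ HopfSix.gaussBonnet R)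
    (R : Arr 6) (hA : IsAlgCurv R) (hK : ∀ z w : Fin 6 → ℂ, kc R z w ≤ 0) :
    HopfSix.gaussBonnet R ≤ 0 := by
  have h := reduce_nonneg H (fun i j k l => (-1) * R i j k l) (algCurv_smul hA _) (by
    intro z w
    rw [kc_smul]
    linarith [hK z w])
  rw [gb_smul] at h
  linarith

end HopfKC
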