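import Pool.Agent.Lib.H87.HopfKC.Block2
import Pool.Agent.Lib.H87.HopfKC.Reduce
import Pool.Agent.Lib.H91.Split

/-!
# Block relations for Einstein curvature tensors at a best 3 + 3 splitting
-/

open Equiv Finset Matrix

namespace HopfKC

abbrev T6' : Type := Fin 6 → Fin 6 → Fin 6 → Fin 6 → ℝ

theorem lo_eq : H91.Split.lo = lo := rfl
theorem hi_eq : H91.Split.hi = hi := rfl

/-- Trace of the mixed block. -/
noncomputable def trT (R : T6') : ℝ := ∑ i, ∑ j, bT R i j i j

section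

variable {R : T6'}

theorem bT_pair (hA : HopfSix.IsAlgCurv R) (i j k l : Fin 3) : bT R i j k l = bT R k l i j :=
  hA.pair _ _ _ _

theorem bA_symm (hA : HopfSix.IsAlgCurv R) (i k : Fin 3) : bA R i k = bA R k i :=
  hA.pair _ _ _ _

theorem bC_symm (hA : HopfSix.IsAlgCurv R) (i k : Fin 3) : bC R i k = bC R k i :=
  hA.pair _ _ _ _

theorem bG_eq (hA : HopfSix.IsAlgCurv R) (i l : Fin 3) :
    bG R i l = bT R (nx i) (nx l) (pv i) (pv l) - bT R (pv i) (nx l) (nx i) (pv l) := by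
  unfold bG bT
  have h := hA.bianchi (lo (nx i)) (lo (pv i)) (hi (nx l)) (hi (pv l))
  have h2 := hA.skew (hi (nx l)) (lo (nx i)) (lo (pv i)) (hi (pv l))
  linarith

/-- All the first-order relations at an Einstein best splitting. -/
structure Best (R : T6') : Prop where
  alg : HopfSix.IsAlgCurv R
  ein : ∀ i k, H91.Split.ric R i k = if i = k then 5 else 0
  fo1 : ∀ α a, ∑ b, R (hi α) (lo b) (lo a) (lo b) = 0
  fo2 : ∀ α a, ∑ β, R (hi α) (hi β) (lo a) (hi β) = 0
  so : ∀ x : Fin 3 → Fin 3 → ℝ, H91.Split.secondVar R x ≤ 0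

theorem exists_best {R : T6'} (hA : HopfSix.IsAlgCurv R)
    (hR : ∀ i k, H91.Split.ric R i k = if i = k then 5 else 0) :
    ∃ O : Matrix (Fin 6) (Fin 6) ℝ, Oᵀ * O = 1 ∧ Best (H91.Split.rot O R) := by
  obtain ⟨O, h1, h2, h3, _, h5, h6, h7⟩ := H91.Split.exists_split hA hR
  exact ⟨O, h1, ⟨h2, h3, h5, h6, h7⟩⟩

section facts

variable (hA : HopfSix.IsAlgCurv R)

include hA

theorem z12 (i k l : Fin 6) : R i i k l = 0 := by have := hA.skew i i k l; linarith
theorem z34 (i j k : Fin 6) : R i j k k = 0 := by rw [hA.pair]; exact z12 hA k i j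
theorem sk34 (i j k l : Fin 6) : R i j l k = - R i j k l := by
  rw [hA.pair, hA.skew, hA.pair]

end facts

theorem bA_eq (h : Best R) (i k : Fin 3) :
    bA R i k = (if i = k then (5 - trT R) / 2 else 0) + ∑ j, bT R i j k j := by
  have hA := h.alg
  have e := fun i k => h.ein i k
  have e00 := e 0 0
  have e01 := e 0 1
  have e02 := e 0 2
  have e11 := e 1 1
  have e12 := e 1 2
  have e22 := e 2 2
  have f33 := e 3 3
  have f44 := e 4 4
  have f55 := e 5 5
  simp only [H91.Split.ric, Fin.sum_univ_six, z12 hA, z34 hA] at e00 e01 e02 e11 e12 e22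
  have q10 : ∀ k l, R 1 0 k l = - R 0 1 k l := fun k l => hA.skew 1 0 k l
  have r10 : ∀ k l, R k l 1 0 = - R k l 0 1 := fun k l => sk34 hA _ _ _ _
  have q20 : ∀ k l, R 2 0 k l = - R 0 2 k l := fun k l => hA.skew 2 0 k l
  have r20 : ∀ k l, R k l 2 0 = - R k l 0 2 := fun k l => sk34 hA _ _ _ _
  have q21 : ∀ k l, R 2 1 k l = - R 1 2 k l := fun k l => hA.skew 2 1 k l
  have r21 : ∀ k l, R k l 2 1 = - R k l 1 2 := fun k l => sk34 hA _ _ _ _
  have s1 := hA.pair 0 1 0 2
  have s2 := hA.pair 0 1 1 2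
  have s3 := hA.pair 0 2 1 2
  have t : ∀ j : Fin 6, R 1 j 0 j = R 0 j 1 j := fun j => hA.pair _ _ _ _
  have t' : ∀ j : Fin 6, R 2 j 0 j = R 0 j 2 j := fun j => hA.pair _ _ _ _
  have t'' : ∀ j : Fin 6, R 2 j 1 j = R 1 j 2 j := fun j => hA.pair _ _ _ _
  fin_cases i <;> fin_cases k <;>
    simp [bA, bT, trT, lo, hi, nx, pv, Fin.sum_univ_three, q10, r10, q20, r20, q21, r21, t, t',
      t''] at e00 e01 e02 e11 e12 e22 ⊢ <;> linarith

theorem bC_eq (h : Best R) (j l : Fin 3) :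
    bC R j l = (if j = l then (5 - trT R) / 2 else 0) + ∑ i, bT R i j i l := by
  have hA := h.alg
  have e := fun i k => h.ein i k
  have e00 := e 3 3
  have e01 := e 3 4
  have e02 := e 3 5
  have e11 := e 4 4
  have e12 := e 4 5
  have e22 := e 5 5
  simp only [H91.Split.ric, Fin.sum_univ_six, z12 hA, z34 hA] at e00 e01 e02 e11 e12 e22
  have q10 : ∀ k l, R 4 3 k l = - R 3 4 k l := fun k l => hA.skew 4 3 k l
  have r10 : ∀ k l, R k l 4 3 = - R k l 3 4 := fun k l => sk34 hA _ _ _ _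
  have q20 : ∀ k l, R 5 3 k l = - R 3 5 k l := fun k l => hA.skew 5 3 k l
  have r20 : ∀ k l, R k l 5 3 = - R k l 3 5 := fun k l => sk34 hA _ _ _ _
  have q21 : ∀ k l, R 5 4 k l = - R 4 5 k l := fun k l => hA.skew 5 4 k l
  have r21 : ∀ k l, R k l 5 4 = - R k l 4 5 := fun k l => sk34 hA _ _ _ _
  have s1 := hA.pair 3 4 3 5
  have s2 := hA.pair 3 4 4 5
  have s3 := hA.pair 3 5 4 5
  have q : ∀ i j : Fin 6, R i 0 j 0 = R 0 i 0 j := fun i j => by
    rw [hA.skew, sk34 hA]; ring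
  have q' : ∀ i j : Fin 6, R i 1 j 1 = R 1 i 1 j := fun i j => by
    rw [hA.skew, sk34 hA]; ring
  have q'' : ∀ i j : Fin 6, R i 2 j 2 = R 2 i 2 j := fun i j => by
    rw [hA.skew, sk34 hA]; ring
  have t : ∀ j : Fin 6, R j 4 j 3 = R j 3 j 4 := fun j => hA.pair _ _ _ _
  have t' : ∀ j : Fin 6, R j 5 j 3 = R j 3 j 5 := fun j => hA.pair _ _ _ _
  have t'' : ∀ j : Fin 6, R j 5 j 4 = R j 4 j 5 := fun j => hA.pair _ _ _ _
  fin_cases j <;> fin_cases l <;>
    simp [bC, bT, trT, lo, hi, nx, pv, Fin.sum_univ_three, q10, r10, q20, r20, q21, r21, t, t',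
      t'', q, q', q''] at e00 e01 e02 e11 e12 e22 ⊢ <;> linarith

theorem bL_symm (h : Best R) (i k l : Fin 3) : bL R i k l = bL R k i l := by
  have hA := h.alg
  have f0 := h.fo1 l 0
  have f1 := h.fo1 l 1
  have f2 := h.fo1 l 2
  simp only [Fin.sum_univ_three] at f0 f1 f2
  have q : ∀ a b c, R (hi l) (lo a) (lo b) (lo c) = - R (lo b) (lo c) (lo a) (hi l) := by
    intro a b c
    rw [hA.skew, hA.pair]
  simp only [q] at f0 f1 f2
  have q10 : ∀ k l, R 1 0 k l = - R 0 1 k l := fun k l => hA.skew 1 0 k l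
  have q20 : ∀ k l, R 2 0 k l = - R 0 2 k l := fun k l => hA.skew 2 0 k l
  have q21 : ∀ k l, R 2 1 k l = - R 1 2 k l := fun k l => hA.skew 2 1 k l
  fin_cases i <;> fin_cases k <;>
    simp [bL, lo, nx, pv, q10, q20, q21, z12 hA] at f0 f1 f2 ⊢ <;> linarith

theorem bL_trace (h : Best R) (l : Fin 3) : ∑ i, bL R i i l = 0 := by
  have hA := h.alg
  have b := hA.bianchi 1 2 0 (hi l)
  simp only [Fin.sum_univ_three, bL, lo, nx, pv, Matrix.cons_val_zero, Matrix.cons_val_one,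
    Matrix.cons_val]
  linarith

theorem bM_symm (h : Best R) (j k l : Fin 3) : bM R j k l = bM R l k j := by
  have hA := h.alg
  have f0 := h.fo2 0 k
  have f1 := h.fo2 1 k
  have f2 := h.fo2 2 k
  simp only [Fin.sum_univ_three] at f0 f1 f2
  have q10 : ∀ k l, R 4 3 k l = - R 3 4 k l := fun k l => hA.skew 4 3 k l
  have q20 : ∀ k l, R 5 3 k l = - R 3 5 k l := fun k l => hA.skew 5 3 k l
  have q21 : ∀ k l, R 5 4 k l = - R 4 5 k l := fun k l => hA.skew 5 4 k l
  fin_cases j <;> fin_cases l <;>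
    simp [bM, hi, nx, pv, q10, q20, q21, z12 hA] at f0 f1 f2 ⊢ <;> linarith

theorem bM_trace (h : Best R) (k : Fin 3) : ∑ j, bM R j k j = 0 := by
  have hA := h.alg
  have b := hA.bianchi 4 5 3 (lo k)
  have q : ∀ a b c, R a b c (lo k) = - R a b (lo k) c := fun a b c => sk34 hA _ _ _ _
  simp only [q] at b
  simp only [Fin.sum_univ_three, bM, hi, nx, pv, Matrix.cons_val_zero, Matrix.cons_val_one,
    Matrix.cons_val]
  linarith

/-- The second order form. -/
noncomputable def bQ (R : T6') (x : Fin 3 → Fin 3 → ℝ) : ℝ :=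
  ∑ a, ∑ b, ∑ α, ∑ β, (2 * bT R b α a β - bT R a α b β) * (x a α * x b β)
    - ∑ a, ∑ α, ∑ β, (∑ b, bT R b α b β) * (x a α * x a β)
    - ∑ a, ∑ b, ∑ α, (∑ β, bT R a β b β) * (x a α * x b α)
    + 5 * ∑ a, ∑ α, x a α * x a α

theorem bQ_eq (h : Best R) (x : Fin 3 → Fin 3 → ℝ) :
    bQ R x = - H91.Split.secondVar R (fun α a => x a α) := by
  have hA := h.alg
  have e1 : ∀ a b α β : Fin 3, R (hi α) (hi β) (lo a) (lo b) = bT R a α b β - bT R b α a β := by
    intro a b α β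
    have h1 := hA.bianchi (lo a) (lo b) (hi α) (hi β)
    have h2 := hA.skew (hi α) (lo a) (lo b) (hi β)
    rw [hA.pair]
    unfold bT
    linarith
  have e2 : ∀ b α β : Fin 3, R (hi α) (lo b) (hi β) (lo b) = bT R b α b β := by
    intro b α β
    rw [hA.skew, sk34 hA, neg_neg]
    rfl
  have e3 : ∀ a b α β : Fin 3, R (hi α) (lo b) (lo a) (hi β) = - bT R b α a β := by
    intro a b α β
    rw [hA.skew]
    rfl
  have e4 : ∀ c a : Fin 3, ∑ b, R (lo c) (lo b) (lo a) (lo b) =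
      (if c = a then 5 else 0) - ∑ β, bT R c β a β := by
    intro c a
    have h1 := h.ein (lo c) (lo a)
    have h2 : (if lo c = lo a then (5 : ℝ) else 0) = if c = a then 5 else 0 := by
      have : lo c = lo a ↔ c = a := by
        fin_cases c <;> fin_cases a <;> simp [lo]
      simp only [this]
    rw [h2] at h1
    rw [← h1]
    simp only [H91.Split.ric, Fin.sum_univ_six, Fin.sum_univ_three, bT]
    simp only [lo, hi, Matrix.cons_val_zero, Matrix.cons_val_one, Matrix.cons_val]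
    ring
  unfold H91.Split.secondVar bQ
  simp only [lo_eq, hi_eq, e1, e2, e3, e4]
  have c1 : ∀ f : Fin 3 → Fin 3 → Fin 3 → Fin 3 → ℝ, ∑ a, ∑ b, ∑ α, ∑ β, f a b α β =
      ∑ a, ∑ α, ∑ β, ∑ b, f a b α β := by
    intro f
    refine Finset.sum_congr rfl fun a _ => ?_
    rw [Finset.sum_comm]
    exact Finset.sum_congr rfl fun α _ => Finset.sum_comm
  have d1 : ∑ a, ∑ b, ∑ α, ∑ β, (x a α * x b β * (bT R a α b β - bT R b α a β)
      + x a α * x a β * bT R b α b β + x a α * x b β * -bT R b α a β) =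
      - (∑ a, ∑ b, ∑ α, ∑ β, (2 * bT R b α a β - bT R a α b β) * (x a α * x b β)) +
        ∑ a, ∑ α, ∑ β, (∑ b, bT R b α b β) * (x a α * x a β) := by
    have : ∑ a, ∑ α, ∑ β, (∑ b, bT R b α b β) * (x a α * x a β) =
        ∑ a, ∑ b, ∑ α, ∑ β, bT R b α b β * (x a α * x a β) := by
      rw [c1]
      simp only [Finset.sum_mul]
    rw [this]
    simp only [← Finset.sum_neg_distrib, ← Finset.sum_add_distrib]
    refine Finset.sum_congr rfl fun a _ => Finset.sum_congr rfl fun b _ =>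
      Finset.sum_congr rfl fun α _ => Finset.sum_congr rfl fun β _ => ?_
    ring
  have d2 : ∑ a, ∑ c, (∑ α, x c α * x a α) * ((if c = a then 5 else 0) - ∑ β, bT R c β a β) =
      5 * (∑ a, ∑ α, x a α * x a α) -
        ∑ a, ∑ b, ∑ α, (∑ β, bT R a β b β) * (x a α * x b α) := by
    simp only [mul_sub, Finset.sum_sub_distrib, mul_ite, mul_zero, Finset.sum_ite_eq',
      Finset.mem_univ, if_true, Finset.mul_sum]
    congr 1
    · refine Finset.sum_congr rfl fun a _ => ?_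
      rw [Finset.sum_mul]
      exact Finset.sum_congr rfl fun b _ => by ring
    · rw [Finset.sum_comm]
      refine Finset.sum_congr rfl fun a _ => Finset.sum_congr rfl fun b _ => ?_
      rw [← Finset.mul_sum, ← Finset.mul_sum, mul_comm]
  rw [d1, d2]
  ring

theorem bQ_nonneg (h : Best R) (x : Fin 3 → Fin 3 → ℝ) : 0 ≤ bQ R x := by
  rw [bQ_eq h]
  have := h.so (fun α a => x a α)
  linarith

end

end HopfKC
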