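import Pool.Agent.Lib.H87.HopfKC.Einstein

/-!
# Coordinates on the space of Einstein curvature tensors at a best splitting
-/

open Finset

namespace HopfKC

/-- Index quadruples of the coordinates. -/
def qdL : List (Fin 6 × Fin 6 × Fin 6 × Fin 6) := [
  (0, 0, 0, 0), (0, 3, 0, 3), (0, 3, 0, 4), (0, 3, 0, 5), (0, 3, 1, 3), (0, 3, 1, 4),
  (0, 3, 1, 5), (0, 3, 2, 3), (0, 3, 2, 4), (0, 3, 2, 5), (0, 4, 0, 4), (0, 4, 0, 5),
  (0, 4, 1, 3), (0, 4, 1, 4), (0, 4, 1, 5), (0, 4, 2, 3), (0, 4, 2, 4), (0, 4, 2, 5),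
  (0, 5, 0, 5), (0, 5, 1, 3), (0, 5, 1, 4), (0, 5, 1, 5), (0, 5, 2, 3), (0, 5, 2, 4),
  (0, 5, 2, 5), (1, 3, 1, 3), (1, 3, 1, 4), (1, 3, 1, 5), (1, 3, 2, 3), (1, 3, 2, 4),
  (1, 3, 2, 5), (1, 4, 1, 4), (1, 4, 1, 5), (1, 4, 2, 3), (1, 4, 2, 4), (1, 4, 2, 5),
  (1, 5, 1, 5), (1, 5, 2, 3), (1, 5, 2, 4), (1, 5, 2, 5), (2, 3, 2, 3), (2, 3, 2, 4),
  (2, 3, 2, 5), (2, 4, 2, 4), (2, 4, 2, 5), (2, 5, 2, 5), (1, 2, 0, 3), (1, 2, 1, 3),
  (1, 2, 2, 3), (2, 0, 1, 3), (2, 0, 2, 3), (1, 2, 0, 4), (1, 2, 1, 4), (1, 2, 2, 4),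
  (2, 0, 1, 4), (2, 0, 2, 4), (1, 2, 0, 5), (1, 2, 1, 5), (1, 2, 2, 5), (2, 0, 1, 5),
  (2, 0, 2, 5), (4, 5, 0, 3), (4, 5, 0, 4), (4, 5, 0, 5), (5, 3, 0, 4), (5, 3, 0, 5),
  (4, 5, 1, 3), (4, 5, 1, 4), (4, 5, 1, 5), (5, 3, 1, 4), (5, 3, 1, 5), (4, 5, 2, 3),
  (4, 5, 2, 4), (4, 5, 2, 5), (5, 3, 2, 4), (5, 3, 2, 5)]

/-- Index quadruple of a coordinate. -/
def qd (i : ℕ) : Fin 6 × Fin 6 × Fin 6 × Fin 6 := qdL.getD i (0, 0, 0, 0)

/-- The coordinates: `c` for index zero, entries of the tensor otherwise. -/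
def cv (c : ℝ) (R : T6') (i : ℕ) : ℝ :=
  if i = 0 then c else R (qd i).1 (qd i).2.1 (qd i).2.2.1 (qd i).2.2.2

/-- Linear relations: curvature tensor with Ricci tensor `5 c δ` and the first order conditions. -/
structure Lin (c : ℝ) (R : T6') : Prop where
  alg : HopfSix.IsAlgCurv R
  ein : ∀ i k, H91.Split.ric R i k = if i = k then 5 * c else 0
  fo1 : ∀ α a, ∑ b, R (hi α) (lo b) (lo a) (lo b) = 0
  fo2 : ∀ α a, ∑ β, R (hi α) (hi β) (lo a) (hi β) = 0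

theorem Best.lin {R : T6'} (h : Best R) : Lin 1 R :=
  ⟨h.alg, by intro i k; rw [h.ein i k, mul_one], h.fo1, h.fo2⟩

/-- Index of the coordinate `T_{p,q}`. -/
def tix (p q : ℕ) : ℕ :=
  if p ≤ q then 1 + (9 * p - p * (p - 1) / 2) + (q - p)
  else 1 + (9 * q - q * (q - 1) / 2) + (p - q)

theorem cv_tix {R : T6'} (hA : HopfSix.IsAlgCurv R) (c : ℝ) (i j k l : Fin 3) :
    cv c R (tix (3 * i + j) (3 * k + l)) = bT R i j k l := by
  fin_cases i <;> fin_cases j <;> fin_cases k <;> fin_cases l <;>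
    first | rfl | exact hA.pair _ _ _ _

theorem Lin.bA_eq {c : ℝ} {R : T6'} (h : Lin c R) (i k : Fin 3) :
    bA R i k = (if i = k then (5 * c - trT R) / 2 else 0) + ∑ j, bT R i j k j := by
  have hA := h.alg
  have e := fun i k => h.ein i k
  have e00 := e 0 0
  have e01 := e 0 1
  have e02 := e 0 2
  have e11 := e 1 1
  have e12 := e 1 2
  have e22 := e 2 2
  have f33 := e 3 3
  have f44 := e 4 4
  have f55 := e 5 5
  simp only [H91.Split.ric, Fin.sum_univ_six, z12 hA, z34 hA] at e00 e01 e02 e11 e12 e22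
  have q10 : ∀ k l, R 1 0 k l = - R 0 1 k l := fun k l => hA.skew 1 0 k l
  have r10 : ∀ k l, R k l 1 0 = - R k l 0 1 := fun k l => sk34 hA _ _ _ _
  have q20 : ∀ k l, R 2 0 k l = - R 0 2 k l := fun k l => hA.skew 2 0 k l
  have r20 : ∀ k l, R k l 2 0 = - R k l 0 2 := fun k l => sk34 hA _ _ _ _
  have q21 : ∀ k l, R 2 1 k l = - R 1 2 k l := fun k l => hA.skew 2 1 k l
  have r21 : ∀ k l, R k l 2 1 = - R k l 1 2 := fun k l => sk34 hA _ _ _ _
  have s1 := hA.pair 0 1 0 2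
  have s2 := hA.pair 0 1 1 2
  have s3 := hA.pair 0 2 1 2
  have t : ∀ j : Fin 6, R 1 j 0 j = R 0 j 1 j := fun j => hA.pair _ _ _ _
  have t' : ∀ j : Fin 6, R 2 j 0 j = R 0 j 2 j := fun j => hA.pair _ _ _ _
  have t'' : ∀ j : Fin 6, R 2 j 1 j = R 1 j 2 j := fun j => hA.pair _ _ _ _
  fin_cases i <;> fin_cases k <;>
    simp [bA, bT, trT, lo, hi, nx, pv, Fin.sum_univ_three, q10, r10, q20, r20, q21, r21, t, t',
      t''] at e00 e01 e02 e11 e12 e22 ⊢ <;> linarith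

theorem Lin.bC_eq {c : ℝ} {R : T6'} (h : Lin c R) (j l : Fin 3) :
    bC R j l = (if j = l then (5 * c - trT R) / 2 else 0) + ∑ i, bT R i j i l := by
  have hA := h.alg
  have e := fun i k => h.ein i k
  have e00 := e 3 3
  have e01 := e 3 4
  have e02 := e 3 5
  have e11 := e 4 4
  have e12 := e 4 5
  have e22 := e 5 5
  simp only [H91.Split.ric, Fin.sum_univ_six, z12 hA, z34 hA] at e00 e01 e02 e11 e12 e22
  have q10 : ∀ k l, R 4 3 k l = - R 3 4 k l := fun k l => hA.skew 4 3 k l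
  have r10 : ∀ k l, R k l 4 3 = - R k l 3 4 := fun k l => sk34 hA _ _ _ _
  have q20 : ∀ k l, R 5 3 k l = - R 3 5 k l := fun k l => hA.skew 5 3 k l
  have r20 : ∀ k l, R k l 5 3 = - R k l 3 5 := fun k l => sk34 hA _ _ _ _
  have q21 : ∀ k l, R 5 4 k l = - R 4 5 k l := fun k l => hA.skew 5 4 k l
  have r21 : ∀ k l, R k l 5 4 = - R k l 4 5 := fun k l => sk34 hA _ _ _ _
  have s1 := hA.pair 3 4 3 5
  have s2 := hA.pair 3 4 4 5
  have s3 := hA.pair 3 5 4 5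
  have q : ∀ i j : Fin 6, R i 0 j 0 = R 0 i 0 j := fun i j => by
    rw [hA.skew, sk34 hA]; ring
  have q' : ∀ i j : Fin 6, R i 1 j 1 = R 1 i 1 j := fun i j => by
    rw [hA.skew, sk34 hA]; ring
  have q'' : ∀ i j : Fin 6, R i 2 j 2 = R 2 i 2 j := fun i j => by
    rw [hA.skew, sk34 hA]; ring
  have t : ∀ j : Fin 6, R j 4 j 3 = R j 3 j 4 := fun j => hA.pair _ _ _ _
  have t' : ∀ j : Fin 6, R j 5 j 3 = R j 3 j 5 := fun j => hA.pair _ _ _ _
  have t'' : ∀ j : Fin 6, R j 5 j 4 = R j 4 j 5 := fun j => hA.pair _ _ _ _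
  fin_cases j <;> fin_cases l <;>
    simp [bC, bT, trT, lo, hi, nx, pv, Fin.sum_univ_three, q10, r10, q20, r20, q21, r21, t, t',
      t'', q, q', q''] at e00 e01 e02 e11 e12 e22 ⊢ <;> linarith

theorem Lin.bL_symm {c : ℝ} {R : T6'} (h : Lin c R) (i k l : Fin 3) : bL R i k l = bL R k i l := by
  have hA := h.alg
  have f0 := h.fo1 l 0
  have f1 := h.fo1 l 1
  have f2 := h.fo1 l 2
  simp only [Fin.sum_univ_three] at f0 f1 f2
  have q : ∀ a b c, R (hi l) (lo a) (lo b) (lo c) = - R (lo b) (lo c) (lo a) (hi l) := by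
    intro a b c
    rw [hA.skew, hA.pair]
  simp only [q] at f0 f1 f2
  have q10 : ∀ k l, R 1 0 k l = - R 0 1 k l := fun k l => hA.skew 1 0 k l
  have q20 : ∀ k l, R 2 0 k l = - R 0 2 k l := fun k l => hA.skew 2 0 k l
  have q21 : ∀ k l, R 2 1 k l = - R 1 2 k l := fun k l => hA.skew 2 1 k l
  fin_cases i <;> fin_cases k <;>
    simp [bL, lo, nx, pv, q10, q20, q21, z12 hA] at f0 f1 f2 ⊢ <;> linarith

theorem Lin.bL_trace {c : ℝ} {R : T6'} (h : Lin c R) (l : Fin 3) : ∑ i, bL R i i l = 0 := by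
  have hA := h.alg
  have b := hA.bianchi 1 2 0 (hi l)
  simp only [Fin.sum_univ_three, bL, lo, nx, pv, Matrix.cons_val_zero, Matrix.cons_val_one,
    Matrix.cons_val]
  linarith

theorem Lin.bM_symm {c : ℝ} {R : T6'} (h : Lin c R) (j k l : Fin 3) : bM R j k l = bM R l k j := by
  have hA := h.alg
  have f0 := h.fo2 0 k
  have f1 := h.fo2 1 k
  have f2 := h.fo2 2 k
  simp only [Fin.sum_univ_three] at f0 f1 f2
  have q10 : ∀ k l, R 4 3 k l = - R 3 4 k l := fun k l => hA.skew 4 3 k l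
  have q20 : ∀ k l, R 5 3 k l = - R 3 5 k l := fun k l => hA.skew 5 3 k l
  have q21 : ∀ k l, R 5 4 k l = - R 4 5 k l := fun k l => hA.skew 5 4 k l
  fin_cases j <;> fin_cases l <;>
    simp [bM, hi, nx, pv, q10, q20, q21, z12 hA] at f0 f1 f2 ⊢ <;> linarith

theorem Lin.bM_trace {c : ℝ} {R : T6'} (h : Lin c R) (k : Fin 3) : ∑ j, bM R j k j = 0 := by
  have hA := h.alg
  have b := hA.bianchi 4 5 3 (lo k)
  have q : ∀ a b c, R a b c (lo k) = - R a b (lo k) c := fun a b c => sk34 hA _ _ _ _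
  simp only [q] at b
  simp only [Fin.sum_univ_three, bM, hi, nx, pv, Matrix.cons_val_zero, Matrix.cons_val_one,
    Matrix.cons_val]
  linarith

/-- Position of a symmetric traceless matrix entry. -/
def lidx : Fin 3 → Fin 3 → ℕ := ![![0, 1, 2], ![1, 3, 4], ![2, 4, 0]]

theorem cv_L {c : ℝ} {R : T6'} (h : Lin c R) (c' : ℝ) (i k l : Fin 3) (hik : ¬ (i = 2 ∧ k = 2)) :
    cv c' R (46 + 5 * l + lidx i k) = bL R i k l := by
  have h10 := h.bL_symm 1 0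
  have h20 := h.bL_symm 2 0
  have h21 := h.bL_symm 2 1
  fin_cases i <;> fin_cases k <;> fin_cases l <;>
    first
    | rfl
    | exact (h10 0).symm
    | exact (h10 1).symm
    | exact (h10 2).symm
    | exact (h20 0).symm
    | exact (h20 1).symm
    | exact (h20 2).symm
    | exact (h21 0).symm
    | exact (h21 1).symm
    | exact (h21 2).symm
    | exact absurd ⟨rfl, rfl⟩ hik

theorem cv_M {c : ℝ} {R : T6'} (h : Lin c R) (c' : ℝ) (j k l : Fin 3) (hjl : ¬ (j = 2 ∧ l = 2)) :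
    cv c' R (61 + 5 * k + lidx j l) = bM R j k l := by
  have h10 := fun k => h.bM_symm 1 k 0
  have h20 := fun k => h.bM_symm 2 k 0
  have h21 := fun k => h.bM_symm 2 k 1
  fin_cases j <;> fin_cases l <;> fin_cases k <;>
    first
    | rfl
    | exact (h10 0).symm
    | exact (h10 1).symm
    | exact (h10 2).symm
    | exact (h20 0).symm
    | exact (h20 1).symm
    | exact (h20 2).symm
    | exact (h21 0).symm
    | exact (h21 1).symm
    | exact (h21 2).symm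
    | exact absurd ⟨rfl, rfl⟩ hjl

end HopfKC
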