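import Pool.Agent.Lib.H87.HopfKC.Coord

/-!
# All entries of an Einstein curvature tensor as linear forms in the coordinates
-/

open Finset

namespace HopfKC

/-- Value of a sparse linear form. -/
def lev (v : ℕ → ℝ) (l : List (ℕ × ℤ)) : ℝ := (l.map fun e => (e.2 : ℝ) * v e.1).sum

theorem lev_nil (v : ℕ → ℝ) : lev v [] = 0 := rfl
theorem lev_cons (v : ℕ → ℝ) (e : ℕ × ℤ) (l : List (ℕ × ℤ)) :
    lev v (e :: l) = (e.2 : ℝ) * v e.1 + lev v l := by simp [lev]
theorem lev_append (v : ℕ → ℝ) (l m : List (ℕ × ℤ)) : lev v (l ++ m) = lev v l + lev v m := by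
  simp [lev]
theorem lev_scale (v : ℕ → ℝ) (s : ℤ) (l : List (ℕ × ℤ)) :
    lev v (l.map fun e => (e.1, s * e.2)) = (s : ℝ) * lev v l := by
  induction l with
  | nil => simp [lev]
  | cons e l ih =>
    rw [List.map_cons, lev_cons, lev_cons, ih]
    push_cast
    ring

/-- Pair types. -/
inductive PI | A (i : Fin 3) | C (i : Fin 3) | T (i j : Fin 3)

/-- First index. -/
def PI.fst : PI → Fin 6
  | .A i => lo (nx i)
  | .C i => hi (nx i)
  | .T i _ => lo i
/-- Second index. -/
def PI.snd : PI → Fin 6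
  | .A i => lo (pv i)
  | .C i => hi (pv i)
  | .T _ j => hi j

/-- Pair type and sign. -/
def pid : Fin 6 → Fin 6 → PI × ℤ := ![
  ![(.A 0, 0), (.A 2, 1), (.A 1, -1), (.T 0 0, 1), (.T 0 1, 1), (.T 0 2, 1)],
  ![(.A 2, -1), (.A 0, 0), (.A 0, 1), (.T 1 0, 1), (.T 1 1, 1), (.T 1 2, 1)],
  ![(.A 1, 1), (.A 0, -1), (.A 0, 0), (.T 2 0, 1), (.T 2 1, 1), (.T 2 2, 1)],
  ![(.T 0 0, -1), (.T 1 0, -1), (.T 2 0, -1), (.A 0, 0), (.C 2, 1), (.C 1, -1)],
  ![(.T 0 1, -1), (.T 1 1, -1), (.T 2 1, -1), (.C 2, -1), (.A 0, 0), (.C 0, 1)],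
  ![(.T 0 2, -1), (.T 1 2, -1), (.T 2 2, -1), (.C 1, 1), (.C 0, -1), (.A 0, 0)]]

theorem pid_spec {R : T6'} (hA : HopfSix.IsAlgCurv R) (a b c d : Fin 6) :
    R a b c d = ((pid a b).2 : ℝ) * R (pid a b).1.fst (pid a b).1.snd c d := by
  have z : ∀ i, R i i c d = 0 := fun i => z12 hA i c d
  have s : ∀ i j, R i j c d = - R j i c d := fun i j => hA.skew i j c d
  fin_cases a <;> fin_cases b <;>
    simp [pid, PI.fst, PI.snd, lo, hi, nx, pv, z] <;> exact s _ _

/-- Linear form of twice an entry. -/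
def entT (i j k l : Fin 3) : List (ℕ × ℤ) := [(tix (3 * i + j) (3 * k + l), 2)]
/-- Diagonal part. -/
def diag5 : List (ℕ × ℤ) := [(0, 5), (1, -1), (10, -1), (18, -1), (25, -1), (31, -1), (36, -1),
  (40, -1), (43, -1), (45, -1)]
/-- Linear form of twice an entry. -/
def entA (i k : Fin 3) : List (ℕ × ℤ) := (if i = k then diag5 else []) ++
  [(tix (3 * i + 0) (3 * k + 0), 2), (tix (3 * i + 1) (3 * k + 1), 2),
    (tix (3 * i + 2) (3 * k + 2), 2)]
/-- Linear form of twice an entry. -/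
def entC (j l : Fin 3) : List (ℕ × ℤ) := (if j = l then diag5 else []) ++
  [(tix (0 + j) (0 + l), 2), (tix (3 + j) (3 + l), 2), (tix (6 + j) (6 + l), 2)]
/-- Linear form of twice an entry. -/
def entG (i l : Fin 3) : List (ℕ × ℤ) := [(tix (3 * nx i + nx l) (3 * pv i + pv l), 2),
  (tix (3 * pv i + nx l) (3 * nx i + pv l), -2)]
/-- Linear form of twice an entry. -/
def entL (i k l : Fin 3) : List (ℕ × ℤ) :=
  if i = 2 ∧ k = 2 then [(46 + 5 * l, -2), (46 + 5 * l + 3, -2)] else [(46 + 5 * l + lidx i k, 2)]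
/-- Linear form of twice an entry. -/
def entM (j k l : Fin 3) : List (ℕ × ℤ) :=
  if j = 2 ∧ l = 2 then [(61 + 5 * k, -2), (61 + 5 * k + 3, -2)] else [(61 + 5 * k + lidx j l, 2)]

section

variable {c : ℝ} {R : T6'}

theorem lev_entT (hA : HopfSix.IsAlgCurv R) (c : ℝ) (i j k l : Fin 3) :
    lev (cv c R) (entT i j k l) = 2 * bT R i j k l := by
  rw [entT, lev_cons, lev_nil, cv_tix hA]
  push_cast
  ring

theorem cv_diag (hA : HopfSix.IsAlgCurv R) (c : ℝ) : lev (cv c R) diag5 = 5 * c - trT R := by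
  have e : ∀ i j : Fin 3, cv c R (tix (3 * i + j) (3 * i + j)) = bT R i j i j :=
    fun i j => cv_tix hA c i j i j
  have h := fun i j => e i j
  have e00 := h 0 0
  have e01 := h 0 1
  have e02 := h 0 2
  have e10 := h 1 0
  have e11 := h 1 1
  have e12 := h 1 2
  have e20 := h 2 0
  have e21 := h 2 1
  have e22 := h 2 2
  have z : cv c R 0 = c := rfl
  simp [tix] at e00 e01 e02 e10 e11 e12 e20 e21 e22
  simp only [diag5, lev_cons, lev_nil, trT, Fin.sum_univ_three, z, e00, e01, e02, e10, e11, e12,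
    e20, e21, e22]
  push_cast
  ring

theorem lev_entA (h : Lin c R) (i k : Fin 3) : lev (cv c R) (entA i k) = 2 * bA R i k := by
  have e0 := cv_tix h.alg c i 0 k 0
  have e1 := cv_tix h.alg c i 1 k 1
  have e2 := cv_tix h.alg c i 2 k 2
  rw [entA, lev_append, lev_cons, lev_cons, lev_cons, lev_nil, h.bA_eq, Fin.sum_univ_three]
  have e0' : cv c R (tix (3 * i + 0) (3 * k + 0)) = bT R i 0 k 0 := e0
  have e1' : cv c R (tix (3 * i + 1) (3 * k + 1)) = bT R i 1 k 1 := e1
  have e2' : cv c R (tix (3 * i + 2) (3 * k + 2)) = bT R i 2 k 2 := e2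
  simp only [e0', e1', e2']
  split_ifs with hik
  · rw [cv_diag h.alg]
    push_cast
    ring
  · rw [lev_nil]
    push_cast
    ring

theorem lev_entC (h : Lin c R) (j l : Fin 3) : lev (cv c R) (entC j l) = 2 * bC R j l := by
  have e0 := cv_tix h.alg c 0 j 0 l
  have e1 := cv_tix h.alg c 1 j 1 l
  have e2 := cv_tix h.alg c 2 j 2 l
  rw [entC, lev_append, lev_cons, lev_cons, lev_cons, lev_nil, h.bC_eq, Fin.sum_univ_three]
  have e0' : cv c R (tix (0 + j) (0 + l)) = bT R 0 j 0 l := by simpa using e0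
  have e1' : cv c R (tix (3 + j) (3 + l)) = bT R 1 j 1 l := by simpa using e1
  have e2' : cv c R (tix (6 + j) (6 + l)) = bT R 2 j 2 l := by simpa using e2
  simp only [e0', e1', e2']
  split_ifs with hik
  · rw [cv_diag h.alg]
    push_cast
    ring
  · rw [lev_nil]
    push_cast
    ring

theorem lev_entG (hA : HopfSix.IsAlgCurv R) (c : ℝ) (i l : Fin 3) :
    lev (cv c R) (entG i l) = 2 * bG R i l := by
  rw [entG, lev_cons, lev_cons, lev_nil, bG_eq hA, cv_tix hA, cv_tix hA]
  push_cast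
  ring

theorem lev_entL (h : Lin c R) (c' : ℝ) (i k l : Fin 3) :
    lev (cv c' R) (entL i k l) = 2 * bL R i k l := by
  rw [entL]
  split_ifs with hik
  · obtain ⟨rfl, rfl⟩ := hik
    have h0 : cv c' R (46 + 5 * l) = bL R 0 0 l := cv_L h c' 0 0 l (by decide)
    have h1 : cv c' R (46 + 5 * l + 3) = bL R 1 1 l := cv_L h c' 1 1 l (by decide)
    have ht := h.bL_trace l
    rw [Fin.sum_univ_three] at ht
    simp only [lev_cons, lev_nil, h0, h1]
    push_cast
    linarith
  · rw [lev_cons, lev_nil, cv_L h c' i k l hik]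
    push_cast
    ring

theorem lev_entM (h : Lin c R) (c' : ℝ) (j k l : Fin 3) :
    lev (cv c' R) (entM j k l) = 2 * bM R j k l := by
  rw [entM]
  split_ifs with hik
  · obtain ⟨rfl, rfl⟩ := hik
    have h0 : cv c' R (61 + 5 * k) = bM R 0 k 0 := cv_M h c' 0 k 0 (by decide)
    have h1 : cv c' R (61 + 5 * k + 3) = bM R 1 k 1 := cv_M h c' 1 k 1 (by decide)
    have ht := h.bM_trace k
    rw [Fin.sum_univ_three] at ht
    simp only [lev_cons, lev_nil, h0, h1]
    push_cast
    linarith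
  · rw [lev_cons, lev_nil, cv_M h c' j k l hik]
    push_cast
    ring

/-- Linear form of twice an entry. -/
def ent15 : PI → PI → List (ℕ × ℤ)
  | .A i, .A k => entA i k
  | .A i, .C l => entG i l
  | .A i, .T k l => entL i k l
  | .C l, .A i => entG i l
  | .C j, .C l => entC j l
  | .C j, .T k l => entM j k l
  | .T k l, .A i => entL i k l
  | .T k l, .C j => entM j k l
  | .T i j, .T k l => entT i j k l

theorem lev_ent15 (h : Lin c R) (p q : PI) :
    lev (cv c R) (ent15 p q) = 2 * R p.fst p.snd q.fst q.snd := by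
  have hA := h.alg
  cases p with
  | A i =>
    cases q with
    | A k => exact lev_entA h i k
    | C l => exact lev_entG hA c i l
    | T k l => exact lev_entL h c i k l
  | C j =>
    cases q with
    | A i =>
      rw [hA.pair]
      exact lev_entG hA c i j
    | C l => exact lev_entC h j l
    | T k l => exact lev_entM h c j k l
  | T i j =>
    cases q with
    | A k =>
      rw [hA.pair]
      exact lev_entL h c k i j
    | C l =>
      rw [hA.pair]
      exact lev_entM h c l i j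
    | T k l => exact lev_entT hA c i j k l

/-- Linear form of twice an arbitrary entry. -/
def ent (a b c d : Fin 6) : List (ℕ × ℤ) :=
  (ent15 (pid a b).1 (pid c d).1).map fun e => (e.1, ((pid a b).2 * (pid c d).2) * e.2)

theorem lev_ent (h : Lin c R) (a b i d : Fin 6) :
    lev (cv c R) (ent a b i d) = 2 * R a b i d := by
  have hA := h.alg
  rw [ent, lev_scale, lev_ent15 h, pid_spec hA a b i d, hA.pair _ _ i d, pid_spec hA i d,
    hA.pair (pid i d).1.fst]
  push_cast
  ring

end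

end HopfKC
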