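import Pool.Agent.Lib.H87.HopfKC.Einstein

/-!
# The term A T C at an Einstein best splitting
-/

open Equiv Finset Matrix

namespace HopfKC

theorem sum6 {M : Type*} [AddCommMonoid M] (f : Fin 6 → M) :
    ∑ m, f m = ∑ i, f (lo i) + ∑ i, f (hi i) := by
  rw [Fin.sum_univ_six, Fin.sum_univ_three, Fin.sum_univ_three]
  simp only [lo, hi, Matrix.cons_val_zero, Matrix.cons_val_one, Matrix.cons_val]
  simp only [add_assoc]

/-- Extension of a vector on the first block. -/
def exl (x : Fin 3 → ℂ) : Fin 6 → ℂ := ![x 0, x 1, x 2, 0, 0, 0]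
/-- Extension of a vector on the second block. -/
def exh (x : Fin 3 → ℂ) : Fin 6 → ℂ := ![0, 0, 0, x 0, x 1, x 2]

theorem exl_lo (x : Fin 3 → ℂ) (i : Fin 3) : exl x (lo i) = x i := by fin_cases i <;> rfl
theorem exl_hi (x : Fin 3 → ℂ) (i : Fin 3) : exl x (hi i) = 0 := by fin_cases i <;> rfl
theorem exh_lo (x : Fin 3 → ℂ) (i : Fin 3) : exh x (lo i) = 0 := by fin_cases i <;> rfl
theorem exh_hi (x : Fin 3 → ℂ) (i : Fin 3) : exh x (hi i) = x i := by fin_cases i <;> rfl

theorem GP_of_KC {R : T6'} (hK : KCnonneg R) :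
    H91.Mat3.GP (fun i k j l => bT R i k j l) := by
  intro x y
  have h := hK (exl x) (exh y)
  unfold kc at h
  simp only [sum6, exl_lo, exl_hi, exh_lo, exh_hi, map_zero, mul_zero, zero_mul,
    Finset.sum_const_zero, add_zero, zero_add] at h
  convert h using 2
  refine Finset.sum_congr rfl fun i _ => Finset.sum_congr rfl fun k _ =>
    Finset.sum_congr rfl fun j _ => Finset.sum_congr rfl fun l _ => ?_
  unfold bT
  ring

/-- Value of the mixed block on vectors. -/
noncomputable def Tv (T : Fin 3 → Fin 3 → Fin 3 → Fin 3 → ℝ) (x y z w : Fin 3 → ℝ) : ℝ :=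
  ∑ i, ∑ j, ∑ k, ∑ l, T i j k l * (x i * y j * z k * w l)

theorem Tv_nonneg {R : T6'} (hK : KCnonneg R) (x y : Fin 3 → ℝ) :
    0 ≤ Tv (bT R) x y x y := by
  have h := GP_of_KC hK (fun i => (x i : ℂ)) (fun i => (y i : ℂ))
  unfold Tv
  have e : (∑ i, ∑ k, ∑ j, ∑ l, ((bT R i k j l : ℝ) : ℂ) *
      ((x i : ℂ) * (y k : ℂ) * (starRingEnd ℂ) (x j : ℂ) * (starRingEnd ℂ) (y l : ℂ))) =
      ((∑ i, ∑ j, ∑ k, ∑ l, bT R i j k l * (x i * y j * x k * y l) : ℝ) : ℂ) := by
    push_cast
    simp only [Complex.conj_ofReal]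
  simp only [e, Complex.ofReal_re] at h
  exact h

/-- Spectral decomposition of a symmetric matrix. -/
theorem exists_frame (A : Fin 3 → Fin 3 → ℝ) (hA : ∀ i k, A i k = A k i) :
    ∃ (n : Fin 3 → Fin 3 → ℝ) (a : Fin 3 → ℝ),
      (∀ p q, ∑ i, n p i * n q i = if p = q then 1 else 0) ∧
      (∀ i k, ∑ p, n p i * n p k = if i = k then 1 else 0) ∧
      (∀ i k, A i k = ∑ p, a p * (n p i * n p k)) := by
  have hH : (Matrix.of A).IsHermitian := by
    ext i k
    simp [Matrix.conjTranspose_apply, hA k i]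
  set U : Matrix (Fin 3) (Fin 3) ℝ := (hH.eigenvectorUnitary : Matrix (Fin 3) (Fin 3) ℝ) with hU
  have u1 : star U * U = 1 := Unitary.coe_star_mul_self hH.eigenvectorUnitary
  have u2 : U * star U = 1 := Unitary.coe_mul_star_self hH.eigenvectorUnitary
  refine ⟨fun p i => U i p, hH.eigenvalues, ?_, ?_, ?_⟩
  · intro p q
    have := congrFun (congrFun u1 p) q
    simpa [Matrix.mul_apply, Matrix.star_apply, Matrix.one_apply] using this
  · intro i k
    have := congrFun (congrFun u2 i) k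
    simpa [Matrix.mul_apply, Matrix.star_apply, Matrix.one_apply] using this
  · intro i k
    have := congrFun (congrFun hH.spectral_theorem i) k
    simp only [Matrix.of_apply] at this
    rw [this]
    simp only [Unitary.conjStarAlgAut_apply, Matrix.mul_apply, Matrix.star_apply,
      Matrix.diagonal_apply]
    simp only [hU]
    simp
    refine Finset.sum_congr rfl fun p _ => ?_
    ring

/-- Completeness in a pair of frames. -/
theorem Tv_sum_right (T : Fin 3 → Fin 3 → Fin 3 → Fin 3 → ℝ) (m : Fin 3 → Fin 3 → ℝ)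
    (hm : ∀ i k, ∑ p, m p i * m p k = if i = k then 1 else 0) (x z : Fin 3 → ℝ) :
    ∑ q, Tv T x (m q) z (m q) = ∑ i, ∑ k, (∑ j, T i j k j) * (x i * z k) := by
  unfold Tv
  rw [Finset.sum_comm]
  refine Finset.sum_congr rfl fun i _ => ?_
  rw [Finset.sum_comm]
  have : ∀ j : Fin 3, ∑ q, ∑ k, ∑ l, T i j k l * (x i * m q j * z k * m q l) =
      ∑ k, T i j k j * (x i * z k) := by
    intro j
    rw [Finset.sum_comm]
    refine Finset.sum_congr rfl fun k _ => ?_
    rw [Finset.sum_comm]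
    have h2 : ∀ l : Fin 3, ∑ q, T i j k l * (x i * m q j * z k * m q l) =
        (if j = l then T i j k l * (x i * z k) else 0) := by
      intro l
      have h3 : ∀ q, T i j k l * (x i * m q j * z k * m q l) =
        (T i j k l * (x i * z k)) * (m q j * m q l) := by intro q; ring
      simp only [h3]
      rw [← Finset.mul_sum, hm j l]
      simp
    simp only [h2]
    simp
  simp only [this]
  rw [Finset.sum_comm]
  refine Finset.sum_congr rfl fun k _ => ?_
  rw [Finset.sum_mul]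

theorem Tv_sum_left (T : Fin 3 → Fin 3 → Fin 3 → Fin 3 → ℝ) (n : Fin 3 → Fin 3 → ℝ)
    (hn : ∀ i k, ∑ p, n p i * n p k = if i = k then 1 else 0) (y w : Fin 3 → ℝ) :
    ∑ p, Tv T (n p) y (n p) w = ∑ j, ∑ l, (∑ i, T i j i l) * (y j * w l) := by
  have h := Tv_sum_right (fun i j k l => T j i l k) n hn y w
  have e : ∀ x, Tv (fun i j k l => T j i l k) y x w x = Tv T x y x w := by
    intro x
    unfold Tv
    rw [Finset.sum_comm]
    refine Finset.sum_congr rfl fun i _ => Finset.sum_congr rfl fun j _ => ?_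
    rw [Finset.sum_comm]
    refine Finset.sum_congr rfl fun k _ => Finset.sum_congr rfl fun l _ => ?_
    ring
  simp only [e] at h
  exact h

/-- The cubic inequality behind `atc_ge`. -/
theorem cubic9 (T : Fin 3 → Fin 3 → ℝ) (τ : ℝ) (hτ : τ = ∑ p, ∑ q, T p q)
    (a c : Fin 3 → ℝ) (ha : ∀ p, a p = (5 - τ) / 2 + ∑ q, T p q)
    (hc : ∀ q, c q = (5 - τ) / 2 + ∑ p, T p q) (hT : ∀ p q, 0 ≤ T p q)
    (hQ : ∀ p q, 0 ≤ 5 + (5 - τ) - a p - c q + T p q) :
    τ * ((15 - τ) / 6) ^ 2 ≤ ∑ p, ∑ q, a p * c q * T p q := by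
  have key : ∑ p, ∑ q, a p * c q * T p q = τ * ((15 - τ) / 6) ^ 2 +
      ∑ p, ∑ q, (1 / 6) * ((a p - (15 - τ) / 6) + (c q - (15 - τ) / 6)) ^ 2 *
        (2 * T p q + (5 + (5 - τ) - a p - c q + T p q)) := by
    simp only [ha, hc, Fin.sum_univ_three] at hτ ⊢
    subst hτ
    ring
  rw [key]
  have : 0 ≤ ∑ p, ∑ q, (1 / 6) * ((a p - (15 - τ) / 6) + (c q - (15 - τ) / 6)) ^ 2 *
        (2 * T p q + (5 + (5 - τ) - a p - c q + T p q)) := by
    refine Finset.sum_nonneg fun p _ => Finset.sum_nonneg fun q _ => ?_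
    have h1 := hT p q
    have h2 := hQ p q
    positivity
  linarith

/-- Quadratic form of a matrix. -/
theorem quad_frame (n : Fin 3 → Fin 3 → ℝ)
    (h1 : ∀ p q, ∑ i, n p i * n q i = if p = q then 1 else 0) (a : Fin 3 → ℝ) (p : Fin 3) :
    ∑ i, ∑ k, (∑ r, a r * (n r i * n r k)) * (n p i * n p k) = a p := by
  have h2 : ∀ r, (∑ i, ∑ k, (n r i * n r k) * (n p i * n p k)) = if r = p then 1 else 0 := by
    intro r
    have : ∑ i, ∑ k, (n r i * n r k) * (n p i * n p k) =
        (∑ i, n r i * n p i) * (∑ k, n r k * n p k) := by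
      rw [Finset.sum_mul_sum]
      refine Finset.sum_congr rfl fun i _ => Finset.sum_congr rfl fun k _ => ?_
      ring
    rw [this, h1]
    split_ifs <;> simp
  have h3 : ∑ i, ∑ k, (∑ r, a r * (n r i * n r k)) * (n p i * n p k) =
      ∑ r, a r * (∑ i, ∑ k, (n r i * n r k) * (n p i * n p k)) := by
    simp only [Finset.mul_sum, Finset.sum_mul]
    rw [HopfSix.sum_comm3 (fun i k r => a r * (n r i * n r k) * (n p i * n p k))]
    refine Finset.sum_congr rfl fun r _ => Finset.sum_congr rfl fun i _ =>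
      Finset.sum_congr rfl fun k _ => ?_
    ring
  rw [h3]
  simp only [h2]
  simp

theorem quad_one (n : Fin 3 → Fin 3 → ℝ)
    (h1 : ∀ p q, ∑ i, n p i * n q i = if p = q then 1 else 0) (s : ℝ)
    (B : Fin 3 → Fin 3 → ℝ) (p : Fin 3) :
    ∑ i, ∑ k, ((if i = k then s else 0) + B i k) * (n p i * n p k) =
      s + ∑ i, ∑ k, B i k * (n p i * n p k) := by
  have e : ∀ i, ∑ k, ((if i = k then s else 0) + B i k) * (n p i * n p k) =
      s * (n p i * n p i) + ∑ k, B i k * (n p i * n p k) := by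
    intro i
    simp [add_mul, Finset.sum_add_distrib]
  simp only [e, Finset.sum_add_distrib, ← Finset.mul_sum]
  rw [h1 p p]
  simp

theorem trace_frame (n : Fin 3 → Fin 3 → ℝ)
    (h2 : ∀ i k, ∑ p, n p i * n p k = if i = k then 1 else 0) (B : Fin 3 → Fin 3 → ℝ) :
    ∑ p, ∑ i, ∑ k, B i k * (n p i * n p k) = ∑ i, B i i := by
  rw [Finset.sum_comm]
  refine Finset.sum_congr rfl fun i _ => ?_
  rw [Finset.sum_comm]
  have : ∀ k, ∑ p, B i k * (n p i * n p k) = if i = k then B i k else 0 := by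
    intro k
    rw [← Finset.mul_sum, h2]
    simp
  simp only [this]
  simp

theorem bQ_prod {R : T6'} (x y : Fin 3 → ℝ) (hx : ∑ i, x i * x i = 1) (hy : ∑ i, y i * y i = 1) :
    bQ R (fun a α => x a * y α) = Tv (bT R) x y x y
      - (∑ j, ∑ l, (∑ i, bT R i j i l) * (y j * y l))
      - (∑ i, ∑ k, (∑ j, bT R i j k j) * (x i * x k)) + 5 := by
  unfold bQ Tv
  have e1 : ∑ a, ∑ b, ∑ α, ∑ β, (2 * bT R b α a β - bT R a α b β) *
      (x a * y α * (x b * y β)) = ∑ i, ∑ j, ∑ k, ∑ l, bT R i j k l * (x i * y j * x k * y l) := by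
    have p : ∀ F : Fin 3 → Fin 3 → Fin 3 → Fin 3 → ℝ, ∑ a, ∑ b, ∑ α, ∑ β, F a b α β =
        ∑ a, ∑ α, ∑ b, ∑ β, F a b α β := by
      intro F
      exact Finset.sum_congr rfl fun a _ => Finset.sum_comm
    have q : ∑ a, ∑ b, ∑ α, ∑ β, bT R b α a β * (x a * y α * (x b * y β)) =
        ∑ i, ∑ j, ∑ k, ∑ l, bT R i j k l * (x i * y j * x k * y l) := by
      rw [Finset.sum_comm, p]
      refine Finset.sum_congr rfl fun a _ => Finset.sum_congr rfl fun b _ =>
        Finset.sum_congr rfl fun α _ => Finset.sum_congr rfl fun β _ => ?_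
      ring
    have q' : ∑ a, ∑ b, ∑ α, ∑ β, bT R a α b β * (x a * y α * (x b * y β)) =
        ∑ i, ∑ j, ∑ k, ∑ l, bT R i j k l * (x i * y j * x k * y l) := by
      rw [p]
      refine Finset.sum_congr rfl fun a _ => Finset.sum_congr rfl fun b _ =>
        Finset.sum_congr rfl fun α _ => Finset.sum_congr rfl fun β _ => ?_
      ring
    have : ∑ a, ∑ b, ∑ α, ∑ β, (2 * bT R b α a β - bT R a α b β) *
      (x a * y α * (x b * y β)) = 2 * (∑ a, ∑ b, ∑ α, ∑ β, bT R b α a β *
        (x a * y α * (x b * y β))) - ∑ a, ∑ b, ∑ α, ∑ β, bT R a α b β *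
        (x a * y α * (x b * y β)) := by
      simp only [Finset.mul_sum, ← Finset.sum_sub_distrib]
      refine Finset.sum_congr rfl fun a _ => Finset.sum_congr rfl fun b _ =>
        Finset.sum_congr rfl fun α _ => Finset.sum_congr rfl fun β _ => ?_
      ring
    rw [this, q, q']
    ring
  have e2 : ∑ a, ∑ α, ∑ β, (∑ b, bT R b α b β) * (x a * y α * (x a * y β)) =
      ∑ j, ∑ l, (∑ i, bT R i j i l) * (y j * y l) := by
    have : ∀ a, ∑ α, ∑ β, (∑ b, bT R b α b β) * (x a * y α * (x a * y β)) =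
        (x a * x a) * ∑ j, ∑ l, (∑ i, bT R i j i l) * (y j * y l) := by
      intro a
      simp only [Finset.mul_sum (a := x a * x a)]
      refine Finset.sum_congr rfl fun j _ => Finset.sum_congr rfl fun l _ => ?_
      ring
    simp only [this]
    rw [← Finset.sum_mul, hx, one_mul]
  have e3 : ∑ a, ∑ b, ∑ α, (∑ β, bT R a β b β) * (x a * y α * (x b * y α)) =
      ∑ i, ∑ k, (∑ j, bT R i j k j) * (x i * x k) := by
    refine Finset.sum_congr rfl fun a _ => Finset.sum_congr rfl fun b _ => ?_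
    have : ∀ α, (∑ β, bT R a β b β) * (x a * y α * (x b * y α)) =
        ((∑ β, bT R a β b β) * (x a * x b)) * (y α * y α) := by intro α; ring
    simp only [this]
    rw [← Finset.mul_sum, hy, mul_one]
  have e4 : ∑ a, ∑ α, x a * y α * (x a * y α) = 1 := by
    have : ∀ a, ∑ α, x a * y α * (x a * y α) = x a * x a := by
      intro a
      have h : ∀ α, x a * y α * (x a * y α) = (x a * x a) * (y α * y α) := by intro α; ring
      simp only [h]
      rw [← Finset.mul_sum, hy, mul_one]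
    simp only [this]
    exact hx
  rw [e1, e2, e3, e4]
  ring

theorem atc_ge {R : T6'} (h : Best R) (hK : KCnonneg R) :
    trT R * ((15 - trT R) / 6) ^ 2 ≤
      ∑ i, ∑ j, ∑ k, ∑ l, bA R i k * bT R i j k l * bC R j l := by
  obtain ⟨n, a, n1, n2, n3⟩ := exists_frame (bA R) (bA_symm h.alg)
  obtain ⟨m, c, m1, m2, m3⟩ := exists_frame (bC R) (bC_symm h.alg)
  have ha : ∀ p, a p = (5 - trT R) / 2 + ∑ q, Tv (bT R) (n p) (m q) (n p) (m q) := by
    intro p
    rw [Tv_sum_right (bT R) m m2, ← quad_one n n1, ← quad_frame n n1 a p]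
    refine Finset.sum_congr rfl fun i _ => Finset.sum_congr rfl fun k _ => ?_
    rw [← n3, bA_eq h]
  have hc : ∀ q, c q = (5 - trT R) / 2 + ∑ p, Tv (bT R) (n p) (m q) (n p) (m q) := by
    intro q
    rw [Tv_sum_left (bT R) n n2, ← quad_one m m1, ← quad_frame m m1 c q]
    refine Finset.sum_congr rfl fun i _ => Finset.sum_congr rfl fun k _ => ?_
    rw [← m3, bC_eq h]
  have hτ : trT R = ∑ p, ∑ q, Tv (bT R) (n p) (m q) (n p) (m q) := by
    simp only [Tv_sum_right (bT R) m m2]
    rw [trace_frame n n2]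
    rfl
  have key := cubic9 (fun p q => Tv (bT R) (n p) (m q) (n p) (m q)) (trT R) hτ a c ha hc
    (fun p q => Tv_nonneg hK _ _) (fun p q => by
      have h1 := bQ_nonneg h (fun i j => n p i * m q j)
      rw [bQ_prod (n p) (m q) (by simpa using n1 p p) (by simpa using m1 q q),
        ← Tv_sum_right (bT R) m m2, ← Tv_sum_left (bT R) n n2] at h1
      have h2 := ha p
      have h3 := hc q
      linarith)
  refine key.trans (le_of_eq ?_)
  have e : ∀ i j k l, bA R i k * bT R i j k l * bC R j l = ∑ p, ∑ q,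
      a p * c q * (bT R i j k l * (n p i * m q j * n p k * m q l)) := by
    intro i j k l
    rw [n3, m3, Finset.sum_mul, Finset.sum_mul]
    refine Finset.sum_congr rfl fun p _ => ?_
    rw [Finset.mul_sum]
    refine Finset.sum_congr rfl fun q _ => ?_
    ring
  simp only [e]
  unfold Tv
  simp only [Finset.mul_sum]
  rw [HopfSix.sum_comm3 (fun p q i => ∑ j, ∑ k, ∑ l, a p * c q *
    (bT R i j k l * (n p i * m q j * n p k * m q l)))]
  refine Finset.sum_congr rfl fun i _ => ?_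
  rw [HopfSix.sum_comm3 (fun p q j => ∑ k, ∑ l, a p * c q *
    (bT R i j k l * (n p i * m q j * n p k * m q l)))]
  refine Finset.sum_congr rfl fun j _ => ?_
  rw [HopfSix.sum_comm3 (fun p q k => ∑ l, a p * c q *
    (bT R i j k l * (n p i * m q j * n p k * m q l)))]
  refine Finset.sum_congr rfl fun k _ => ?_
  rw [HopfSix.sum_comm3 (fun p q l => a p * c q *
    (bT R i j k l * (n p i * m q j * n p k * m q l)))]

end HopfKC
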