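import Pool.Agent.Lib.H87.HopfKC.Cert.Final
import Pool.Agent.Lib.H88.HopfKCStrict

/-!
# Six-dimensional curvature tensors with signed complex sectional curvature
-/

open Finset H91.Split
open Pool.Agent.H69Hopf

namespace HopfKC

/-- **Main algebraic theorem**, nonnegative case. -/
theorem gb_nonneg {R : T6'} (hA : IsAlgCurv R) (hK : KCnonneg R) :
    0 ≤ HopfSix.gaussBonnet R :=
  nonneg_of_cert (c₀ := 92) (by norm_num) (fun _ h hm => cert h hm) hA hK

/-- **Main algebraic theorem**, nonpositive case, with the strict version. -/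
theorem gb_nonpos {R : T6'} (hA : IsAlgCurv R) (hK : ∀ z w : Fin 6 → ℂ, kc R z w ≤ 0) :
    HopfSix.gaussBonnet R ≤ 0 ∧
      ((∀ x y : Fin 6 → ℝ, LinearIndependent ℝ ![x, y] → ev R x y x y < 0) →
        HopfSix.gaussBonnet R < 0) :=
  nonpos_of_cert (c₀ := 92) (by norm_num) (fun _ h hm => cert h hm) hA hK

end HopfKC
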