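import Pool.Agent.Lib.H87.HopfKC.Block

/-!
# The Gauss–Bonnet integrand in dimension six in terms of the blocks of a 3 + 3 splitting, II
-/

open Equiv Finset Matrix

namespace HopfKC

/-- Skew elementary matrices. -/
noncomputable def el (p : Fin 6 × Fin 6) (i j : Fin 6) : ℝ :=
  ((if p.1 = i then 1 else 0) * (if p.2 = j then 1 else 0) -
    (if p.1 = j then 1 else 0) * (if p.2 = i then 1 else 0)) / 2

theorem sum_el (F : Fin 6 × Fin 6 → ℝ) (i j : Fin 6) :
    ∑ p : Fin 6 × Fin 6, F p * el p i j = (F (i, j) - F (j, i)) / 2 := by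
  have h : ∀ p : Fin 6 × Fin 6, F p * el p i j =
      (if p = (i, j) then F p / 2 else 0) - (if p = (j, i) then F p / 2 else 0) := by
    rintro ⟨a, b⟩
    have e1 : ∀ (P Q : Prop) [Decidable P] [Decidable Q],
        (if P then (1 : ℝ) else 0) * (if Q then 1 else 0) = if (P ∧ Q) then 1 else 0 := by
      intro P Q _ _
      split_ifs <;> simp_all
    simp only [el, Prod.mk.injEq, e1]
    split_ifs <;> ring
  simp only [h, Finset.sum_sub_distrib, Finset.sum_ite_eq', Finset.mem_univ, if_true]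
  ring

theorem exists_decomp {R : Fin 6 → Fin 6 → Fin 6 → Fin 6 → ℝ} (hA : HopfSix.IsAlgCurv R) :
    ∃ (s : (Fin 6 × Fin 6) × (Fin 6 × Fin 6) × Bool → ℝ)
      (f : (Fin 6 × Fin 6) × (Fin 6 × Fin 6) × Bool → Matrix (Fin 6) (Fin 6) ℝ),
      (∀ x i j, f x i j = - f x j i) ∧
      ∀ i j k l, R i j k l = ∑ x, s x * f x i j * f x k l := by
  refine ⟨fun x => if x.2.2 then R x.1.1 x.1.2 x.2.1.1 x.2.1.2 / 4
      else - (R x.1.1 x.1.2 x.2.1.1 x.2.1.2 / 4),
    fun x => Matrix.of fun i j => if x.2.2 then el x.1 i j + el x.2.1 i j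
      else el x.1 i j - el x.2.1 i j, ?_, ?_⟩
  · intro x i j
    have hs : ∀ p, el p i j = - el p j i := by
      intro p; unfold el; ring
    simp only [Matrix.of_apply]
    rw [hs x.1, hs x.2.1]
    split_ifs <;> ring
  · intro i j k l
    rw [Fintype.sum_prod_type]
    simp only [Fintype.sum_prod_type (α₁ := Fin 6 × Fin 6) (α₂ := Bool), Fintype.sum_bool,
      if_true, Matrix.of_apply, Bool.false_eq_true, if_false]
    have h1 : ∀ p q : Fin 6 × Fin 6,
        R p.1 p.2 q.1 q.2 / 4 * (el p i j + el q i j) * (el p k l + el q k l) +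
        - (R p.1 p.2 q.1 q.2 / 4) * (el p i j - el q i j) * (el p k l - el q k l) =
        1 / 2 * (R p.1 p.2 q.1 q.2 * el q k l * el p i j) +
        1 / 2 * (R p.1 p.2 q.1 q.2 * el q i j * el p k l) := by
      intro p q; ring
    simp only [h1, Finset.sum_add_distrib, ← Finset.mul_sum]
    have h2 : ∀ a b c d : Fin 6, ∑ p : Fin 6 × Fin 6, ∑ q : Fin 6 × Fin 6,
        R p.1 p.2 q.1 q.2 * el q c d * el p a b = R a b c d := by
      intro a b c d
      have h3 : ∀ p : Fin 6 × Fin 6, ∑ q : Fin 6 × Fin 6,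
          R p.1 p.2 q.1 q.2 * el q c d * el p a b = R p.1 p.2 c d * el p a b := by
        intro p
        rw [← Finset.sum_mul, sum_el (fun q => R p.1 p.2 q.1 q.2)]
        have : R p.1 p.2 d c = - R p.1 p.2 c d := by
          rw [hA.pair, hA.skew, hA.pair]
        simp only [this]
        ring
      rw [Finset.sum_congr rfl fun p _ => h3 p, sum_el (fun p => R p.1 p.2 c d)]
      simp only []
      rw [hA.skew b a c d]
      ring
    rw [h2 i j k l, h2 k l i j, hA.pair k l i j]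
    ring

/-- Blocks of a curvature tensor. -/
def bT (R : Fin 6 → Fin 6 → Fin 6 → Fin 6 → ℝ) (i j k l : Fin 3) : ℝ :=
  R (lo i) (hi j) (lo k) (hi l)
/-- Blocks of a curvature tensor. -/
def bA (R : Fin 6 → Fin 6 → Fin 6 → Fin 6 → ℝ) (i k : Fin 3) : ℝ :=
  R (lo (nx i)) (lo (pv i)) (lo (nx k)) (lo (pv k))
/-- Blocks of a curvature tensor. -/
def bC (R : Fin 6 → Fin 6 → Fin 6 → Fin 6 → ℝ) (j l : Fin 3) : ℝ :=
  R (hi (nx j)) (hi (pv j)) (hi (nx l)) (hi (pv l))
/-- Blocks of a curvature tensor. -/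
def bG (R : Fin 6 → Fin 6 → Fin 6 → Fin 6 → ℝ) (i l : Fin 3) : ℝ :=
  R (lo (nx i)) (lo (pv i)) (hi (nx l)) (hi (pv l))
/-- Blocks of a curvature tensor. -/
def bL (R : Fin 6 → Fin 6 → Fin 6 → Fin 6 → ℝ) (i k l : Fin 3) : ℝ :=
  R (lo (nx i)) (lo (pv i)) (lo k) (hi l)
/-- Blocks of a curvature tensor. -/
def bM (R : Fin 6 → Fin 6 → Fin 6 → Fin 6 → ℝ) (j k l : Fin 3) : ℝ :=
  R (hi (nx j)) (hi (pv j)) (lo k) (hi l)

/-- The cross term. -/
noncomputable def bX (R : Fin 6 → Fin 6 → Fin 6 → Fin 6 → ℝ) : ℝ :=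
  ∑ ρ : Perm (Fin 3), ∑ π : Perm (Fin 3), ∑ i, ∑ j,
    ((Perm.sign ρ : ℤ) : ℝ) * ((Perm.sign π : ℤ) : ℝ) *
      (bL R i (ρ 0) (π 0) * bT R (ρ 1) (π 1) i j * bM R j (ρ 2) (π 2))

/-- The part without determinants. -/
noncomputable def bE3 (R : Fin 6 → Fin 6 → Fin 6 → Fin 6 → ℝ) : ℝ :=
  ∑ i, ∑ j, ∑ k, ∑ l,
    (bA R i k * bT R i j k l * bC R j l + bA R i k * bM R l i j * bM R j k l +
      bC R j l * bL R i k l * bL R k i j + bG R i l * bG R k j * bT R i j k l +
      bL R i k l * bM R l i j * bG R k j + bG R i l * bM R j k l * bL R k i j)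

theorem T3_congr {ι : Type*} [Fintype ι] (s : ι → ℝ) {F G : ι → ι → ι → ℝ}
    (h : ∀ x y z, F x y z = G x y z) : T3 s F = T3 s G := by
  have : F = G := by funext x y z; exact h x y z
  rw [this]

theorem gb_blocks {R : Fin 6 → Fin 6 → Fin 6 → Fin 6 → ℝ} (hA : HopfSix.IsAlgCurv R) :
    HopfSix.gaussBonnet R = 384 * (H91.Mat3.QP (fun i k j l => bT R i k j l) - 2 * bX R + bE3 R) := by
  obtain ⟨s, f, hf, hR⟩ := exists_decomp hA
  have hgb := HopfSix.gb_decomp s f R hR
  have h1 : HopfSix.gaussBonnet R = 64 * (T3 s (fun x y z => D3 (f x) (f y) (f z) *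
      D3 (f x) (f y) (f z)) - 2 * T3 s (fun x y z => D3 (f x) (f y) (f z) *
      G3 (f x) (f y) (f z)) + T3 s (fun x y z => G3 (f x) (f y) (f z) *
      G3 (f x) (f y) (f z))) := by
    rw [hgb]
    have e : T3 s (fun x y z => HopfSix.W (f x) (f y) (f z) ^ 2) = 64 * (T3 s (fun x y z =>
      D3 (f x) (f y) (f z) *
      D3 (f x) (f y) (f z)) - 2 * T3 s (fun x y z => D3 (f x) (f y) (f z) *
      G3 (f x) (f y) (f z)) + T3 s (fun x y z => G3 (f x) (f y) (f z) *
      G3 (f x) (f y) (f z))) := by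
      have e2 : ∀ A B C : ℝ, 64 * (A - 2 * B + C) = 64 * A + (-128) * B + 64 * C := by
        intro A B C; ring
      rw [e2, ← T3_smul, ← T3_smul, ← T3_smul, ← T3_add, ← T3_add]
      refine T3_congr s fun x y z => ?_
      rw [W_block _ _ _ (hf x) (hf y) (hf z)]
      ring
    exact e
  have dsym12 : ∀ a b c : Matrix (Fin 6) (Fin 6) ℝ, D3 b a c = D3 a b c := by
    intro a b c; rw [D3_eq, D3_eq]; ring
  have dsym23 : ∀ a b c : Matrix (Fin 6) (Fin 6) ℝ, D3 a c b = D3 a b c := by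
    intro a b c; rw [D3_eq, D3_eq]; ring
  have gsym12 : ∀ a b c : Matrix (Fin 6) (Fin 6) ℝ, G3 b a c = G3 a b c := by
    intro a b c; unfold G3; ring
  have gsym23 : ∀ a b c : Matrix (Fin 6) (Fin 6) ℝ, G3 a c b = G3 a b c := by
    intro a b c; unfold G3; ring
  have k1 : T3 s (fun x y z => D3 (f x) (f y) (f z) * D3 (f x) (f y) (f z)) =
      6 * T3 s (fun x y z => D3 (f x) (f y) (f z) * d0 (f x) (f y) (f z)) := by
    rw [← T3_sym s (fun x y z => D3 (f x) (f y) (f z)) (fun x y z => d0 (f x) (f y) (f z))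
      (fun x y z => dsym12 _ _ _) (fun x y z => dsym23 _ _ _)]
    refine T3_congr s fun x y z => ?_
    rw [← D3_eq]
  have k2 : T3 s (fun x y z => D3 (f x) (f y) (f z) * G3 (f x) (f y) (f z)) =
      6 * T3 s (fun x y z => D3 (f x) (f y) (f z) * g0 (f x) (f y) (f z)) := by
    rw [← T3_sym s (fun x y z => D3 (f x) (f y) (f z)) (fun x y z => g0 (f x) (f y) (f z))
      (fun x y z => dsym12 _ _ _) (fun x y z => dsym23 _ _ _)]
    rfl
  have k3 : T3 s (fun x y z => G3 (f x) (f y) (f z) * G3 (f x) (f y) (f z)) =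
      6 * T3 s (fun x y z => G3 (f x) (f y) (f z) * g0 (f x) (f y) (f z)) := by
    rw [← T3_sym s (fun x y z => G3 (f x) (f y) (f z)) (fun x y z => g0 (f x) (f y) (f z))
      (fun x y z => gsym12 _ _ _) (fun x y z => gsym23 _ _ _)]
    rfl
  -- contractions
  have cAA : ∀ i k, ∑ x, s x * fa (f x) i * fa (f x) k = bA R i k := fun i k => (hR _ _ _ _).symm
  have cAT : ∀ i k l, ∑ x, s x * fa (f x) i * fv (f x) k l = bL R i k l :=
    fun i k l => (hR _ _ _ _).symm
  have cTA : ∀ i k l, ∑ x, s x * fv (f x) k l * fa (f x) i = bL R i k l := by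
    intro i k l
    rw [← cAT]
    exact Finset.sum_congr rfl fun x _ => by ring
  have cAC : ∀ i l, ∑ x, s x * fa (f x) i * fc (f x) l = bG R i l := fun i l => (hR _ _ _ _).symm
  have cCA : ∀ i l, ∑ x, s x * fc (f x) l * fa (f x) i = bG R i l := by
    intro i l
    rw [← cAC]
    exact Finset.sum_congr rfl fun x _ => by ring
  have cTT : ∀ i j k l, ∑ x, s x * fv (f x) i j * fv (f x) k l = bT R i j k l :=
    fun i j k l => (hR _ _ _ _).symm
  have cCT : ∀ j k l, ∑ x, s x * fc (f x) j * fv (f x) k l = bM R j k l :=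
    fun j k l => (hR _ _ _ _).symm
  have cTC : ∀ j k l, ∑ x, s x * fv (f x) k l * fc (f x) j = bM R j k l := by
    intro j k l
    rw [← cCT]
    exact Finset.sum_congr rfl fun x _ => by ring
  have cCC : ∀ j l, ∑ x, s x * fc (f x) j * fc (f x) l = bC R j l := fun j l => (hR _ _ _ _).symm
  have g0p : ∀ u v w : Matrix (Fin 6) (Fin 6) ℝ, g0 u v w =
      ∑ b : Fin 3 × Fin 3, (1 : ℝ) * (fa u b.1 * fv v b.1 b.2 * fc w b.2) := by
    intro u v w
    unfold g0
    rw [Fintype.sum_prod_type]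
    simp only [one_mul]
  have D3p : ∀ u v w : Matrix (Fin 6) (Fin 6) ℝ, D3 u v w =
      ∑ b : Perm (Fin 3) × Perm (Fin 3), (((Perm.sign b.1 : ℤ) : ℝ) * ((Perm.sign b.2 : ℤ) : ℝ)) *
        (fv u (b.1 0) (b.2 0) * fv v (b.1 1) (b.2 1) * fv w (b.1 2) (b.2 2)) := by
    intro u v w
    unfold D3
    rw [Fintype.sum_prod_type]
  have m1 : T3 s (fun x y z => D3 (f x) (f y) (f z) * d0 (f x) (f y) (f z)) =
      H91.Mat3.QP (fun i k j l => bT R i k j l) := by
    have := contr s (fun b : Perm (Fin 3) × Perm (Fin 3) =>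
        ((Perm.sign b.1 : ℤ) : ℝ) * ((Perm.sign b.2 : ℤ) : ℝ))
      (fun b x => fv (f x) (b.1 0) (b.2 0)) (fun b x => fv (f x) (b.1 1) (b.2 1))
      (fun b x => fv (f x) (b.1 2) (b.2 2)) (fun π : Perm (Fin 3) => ((Perm.sign π : ℤ) : ℝ))
      (fun π x => fv (f x) 0 (π 0)) (fun π x => fv (f x) 1 (π 1)) (fun π x => fv (f x) 2 (π 2))
    simp only [cTT] at this
    simp only [← D3p] at this
    rw [show T3 s (fun x y z => D3 (f x) (f y) (f z) * d0 (f x) (f y) (f z)) = _ from this,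
      Fintype.sum_prod_type]
    unfold H91.Mat3.QP
    refine Finset.sum_congr rfl fun ρ _ => ?_
    rw [Finset.sum_comm]
    refine Finset.sum_congr rfl fun π _ => ?_
    refine Finset.sum_congr rfl fun τ _ => ?_
    have sy : ∀ i j k l, bT R i j k l = bT R k l i j := fun i j k l => hA.pair _ _ _ _
    rw [Fin.prod_univ_three, sy (ρ 0), sy (ρ 1), sy (ρ 2)]
    ring
  have m2 : T3 s (fun x y z => D3 (f x) (f y) (f z) * g0 (f x) (f y) (f z)) = bX R := by
    have := contr s (fun b : Perm (Fin 3) × Perm (Fin 3) =>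
        ((Perm.sign b.1 : ℤ) : ℝ) * ((Perm.sign b.2 : ℤ) : ℝ))
      (fun b x => fv (f x) (b.1 0) (b.2 0)) (fun b x => fv (f x) (b.1 1) (b.2 1))
      (fun b x => fv (f x) (b.1 2) (b.2 2)) (fun _ : Fin 3 × Fin 3 => (1 : ℝ))
      (fun b x => fa (f x) b.1) (fun b x => fv (f x) b.1 b.2) (fun b x => fc (f x) b.2)
    simp only [cTT, cTA, cTC] at this
    simp only [← D3p, ← g0p] at this
    rw [this, Fintype.sum_prod_type]
    unfold bX
    refine Finset.sum_congr rfl fun ρ _ => Finset.sum_congr rfl fun π _ => ?_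
    rw [Fintype.sum_prod_type]
    refine Finset.sum_congr rfl fun i _ => Finset.sum_congr rfl fun j _ => ?_
    ring
  have m3 : T3 s (fun x y z => G3 (f x) (f y) (f z) * g0 (f x) (f y) (f z)) = bE3 R := by
    have q1 := contr s (fun _ : Fin 3 × Fin 3 => (1 : ℝ))
      (fun b x => fa (f x) b.1) (fun b x => fv (f x) b.1 b.2) (fun b x => fc (f x) b.2)
      (fun _ : Fin 3 × Fin 3 => (1 : ℝ))
      (fun b x => fa (f x) b.1) (fun b x => fv (f x) b.1 b.2) (fun b x => fc (f x) b.2)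
    have q2 := contr s (fun _ : Fin 3 × Fin 3 => (1 : ℝ))
      (fun b x => fa (f x) b.1) (fun b x => fc (f x) b.2) (fun b x => fv (f x) b.1 b.2)
      (fun _ : Fin 3 × Fin 3 => (1 : ℝ))
      (fun b x => fa (f x) b.1) (fun b x => fv (f x) b.1 b.2) (fun b x => fc (f x) b.2)
    have q3 := contr s (fun _ : Fin 3 × Fin 3 => (1 : ℝ))
      (fun b x => fv (f x) b.1 b.2) (fun b x => fa (f x) b.1) (fun b x => fc (f x) b.2)
      (fun _ : Fin 3 × Fin 3 => (1 : ℝ))
      (fun b x => fa (f x) b.1) (fun b x => fv (f x) b.1 b.2) (fun b x => fc (f x) b.2)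
    have q4 := contr s (fun _ : Fin 3 × Fin 3 => (1 : ℝ))
      (fun b x => fc (f x) b.2) (fun b x => fa (f x) b.1) (fun b x => fv (f x) b.1 b.2)
      (fun _ : Fin 3 × Fin 3 => (1 : ℝ))
      (fun b x => fa (f x) b.1) (fun b x => fv (f x) b.1 b.2) (fun b x => fc (f x) b.2)
    have q5 := contr s (fun _ : Fin 3 × Fin 3 => (1 : ℝ))
      (fun b x => fv (f x) b.1 b.2) (fun b x => fc (f x) b.2) (fun b x => fa (f x) b.1)
      (fun _ : Fin 3 × Fin 3 => (1 : ℝ))
      (fun b x => fa (f x) b.1) (fun b x => fv (f x) b.1 b.2) (fun b x => fc (f x) b.2)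
    have q6 := contr s (fun _ : Fin 3 × Fin 3 => (1 : ℝ))
      (fun b x => fc (f x) b.2) (fun b x => fv (f x) b.1 b.2) (fun b x => fa (f x) b.1)
      (fun _ : Fin 3 × Fin 3 => (1 : ℝ))
      (fun b x => fa (f x) b.1) (fun b x => fv (f x) b.1 b.2) (fun b x => fc (f x) b.2)
    simp only [cAA, cTT, cCC, cTA, cAT, cTC, cCT, cAC, cCA] at q1 q2 q3 q4 q5 q6
    have e : T3 s (fun x y z => G3 (f x) (f y) (f z) * g0 (f x) (f y) (f z)) =
      T3 s (fun x y z => g0 (f x) (f y) (f z) * g0 (f x) (f y) (f z)) +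
      T3 s (fun x y z => g0 (f x) (f z) (f y) * g0 (f x) (f y) (f z)) +
      T3 s (fun x y z => g0 (f y) (f x) (f z) * g0 (f x) (f y) (f z)) +
      T3 s (fun x y z => g0 (f y) (f z) (f x) * g0 (f x) (f y) (f z)) +
      T3 s (fun x y z => g0 (f z) (f x) (f y) * g0 (f x) (f y) (f z)) +
      T3 s (fun x y z => g0 (f z) (f y) (f x) * g0 (f x) (f y) (f z)) := by
      rw [← T3_add, ← T3_add, ← T3_add, ← T3_add, ← T3_add]
      refine T3_congr s fun x y z => ?_
      unfold G3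
      ring
    have p1 : T3 s (fun x y z => g0 (f x) (f y) (f z) * g0 (f x) (f y) (f z)) = _ :=
      (T3_congr s fun x y z => by rw [g0p]).trans q1
    have p2 : T3 s (fun x y z => g0 (f x) (f z) (f y) * g0 (f x) (f y) (f z)) = _ :=
      (T3_congr s fun x y z => by
        rw [g0p, g0p]
        congr 1
        exact Finset.sum_congr rfl fun b _ => by ring).trans q2
    have p3 : T3 s (fun x y z => g0 (f y) (f x) (f z) * g0 (f x) (f y) (f z)) = _ :=
      (T3_congr s fun x y z => by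
        rw [g0p, g0p]
        congr 1
        exact Finset.sum_congr rfl fun b _ => by ring).trans q3
    have p4 : T3 s (fun x y z => g0 (f y) (f z) (f x) * g0 (f x) (f y) (f z)) = _ :=
      (T3_congr s fun x y z => by
        rw [g0p, g0p]
        congr 1
        exact Finset.sum_congr rfl fun b _ => by ring).trans q4
    have p5 : T3 s (fun x y z => g0 (f z) (f x) (f y) * g0 (f x) (f y) (f z)) = _ :=
      (T3_congr s fun x y z => by
        rw [g0p, g0p]
        congr 1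
        exact Finset.sum_congr rfl fun b _ => by ring).trans q5
    have p6 : T3 s (fun x y z => g0 (f z) (f y) (f x) * g0 (f x) (f y) (f z)) = _ :=
      (T3_congr s fun x y z => by
        rw [g0p, g0p]
        congr 1
        exact Finset.sum_congr rfl fun b _ => by ring).trans q6
    rw [e, p1, p2, p3, p4, p5, p6]
    unfold bE3
    simp only [Fintype.sum_prod_type, ← Finset.sum_add_distrib]
    refine Finset.sum_congr rfl fun i _ => Finset.sum_congr rfl fun j _ =>
      Finset.sum_congr rfl fun k _ => Finset.sum_congr rfl fun l _ => ?_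
    ring
  rw [h1, k1, k2, k3, m1, m2, m3]
  ring

end HopfKC
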