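import Pool.Agent.Lib.HopfSix.Decomp
import Pool.Agent.Lib.H91.Mat3Real

/-!
# The Gauss–Bonnet integrand in dimension six in terms of the blocks of a 3 + 3 splitting
-/

open Equiv Finset Matrix

namespace HopfKC

/-- First three coordinates. -/
def lo : Fin 3 → Fin 6 := ![0, 1, 2]
/-- Last three coordinates. -/
def hi : Fin 3 → Fin 6 := ![3, 4, 5]
/-- Next index modulo three. -/
def nx : Fin 3 → Fin 3 := ![1, 2, 0]
/-- Previous index modulo three. -/
def pv : Fin 3 → Fin 3 := ![2, 0, 1]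

/-- Components of a skew matrix in the splitting. -/
def fa (f : Matrix (Fin 6) (Fin 6) ℝ) (i : Fin 3) : ℝ := f (lo (nx i)) (lo (pv i))
/-- Components of a skew matrix in the splitting. -/
def fv (f : Matrix (Fin 6) (Fin 6) ℝ) (i j : Fin 3) : ℝ := f (lo i) (hi j)
/-- Components of a skew matrix in the splitting. -/
def fc (f : Matrix (Fin 6) (Fin 6) ℝ) (j : Fin 3) : ℝ := f (hi (nx j)) (hi (pv j))

/-- Polarised determinant. -/
noncomputable def D3 (f g h : Matrix (Fin 6) (Fin 6) ℝ) : ℝ :=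
  ∑ ρ : Perm (Fin 3), ∑ π : Perm (Fin 3), ((Perm.sign ρ : ℤ) : ℝ) * ((Perm.sign π : ℤ) : ℝ) *
    (fv f (ρ 0) (π 0) * fv g (ρ 1) (π 1) * fv h (ρ 2) (π 2))

/-- The trilinear form `a(f) v(g) c(h)`. -/
def g0 (f g h : Matrix (Fin 6) (Fin 6) ℝ) : ℝ := ∑ i, ∑ j, fa f i * fv g i j * fc h j

/-- Its symmetrisation. -/
def G3 (f g h : Matrix (Fin 6) (Fin 6) ℝ) : ℝ :=
  g0 f g h + g0 f h g + g0 g f h + g0 g h f + g0 h f g + g0 h g f

theorem sum_perm3 (F : Perm (Fin 3) → ℝ) : ∑ σ : Perm (Fin 3), F σ =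
    F 1 + F (swap 0 1) + F (swap 0 2) + F (swap 1 2) + F (swap 0 1 * swap 1 2) +
      F (swap 1 2 * swap 0 1) := by
  have h : (Finset.univ : Finset (Perm (Fin 3))) = {1, swap 0 1, swap 0 2, swap 1 2,
      swap 0 1 * swap 1 2, swap 1 2 * swap 0 1} := by decide
  rw [h]
  rw [Finset.sum_insert (by decide), Finset.sum_insert (by decide), Finset.sum_insert (by decide),
    Finset.sum_insert (by decide), Finset.sum_insert (by decide), Finset.sum_singleton]
  ring

theorem W_block (f g h : Matrix (Fin 6) (Fin 6) ℝ) (hf : ∀ i j, f i j = - f j i)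
    (hg : ∀ i j, g i j = - g j i) (hh : ∀ i j, h i j = - h j i) :
    HopfSix.W f g h = 8 * (G3 f g h - D3 f g h) := by
  have w := HopfSix.W_self
  have sk : ∀ a b : Matrix (Fin 6) (Fin 6) ℝ, (∀ i j, a i j = - a j i) →
      (∀ i j, b i j = - b j i) → ∀ i j, (a + b) i j = - (a + b) j i := by
    intro a b ha hb i j
    rw [Matrix.add_apply, Matrix.add_apply, ha i j, hb i j]; ring
  have h1 := w (f + g + h) (sk _ _ (sk _ _ hf hg) hh)
  have h2 := w (f + g) (sk _ _ hf hg)
  have h3 := w (f + h) (sk _ _ hf hh)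
  have h4 := w (g + h) (sk _ _ hg hh)
  have h5 := w f hf
  have h6 := w g hg
  have h7 := w h hh
  simp only [HopfSix.W_add1, HopfSix.W_add2, HopfSix.W_add3] at h1 h2 h3 h4
  have e1 : HopfSix.W f h g = HopfSix.W f g h := HopfSix.W_comm23 _ _ _
  have e2 : HopfSix.W g f h = HopfSix.W f g h := HopfSix.W_comm12 _ _ _
  have e3 : HopfSix.W g h f = HopfSix.W f g h := by rw [HopfSix.W_comm23, HopfSix.W_comm12]
  have e4 : HopfSix.W h f g = HopfSix.W f g h := by rw [HopfSix.W_comm12, HopfSix.W_comm23]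
  have e5 : HopfSix.W h g f = HopfSix.W f g h := HopfSix.W_comm13 _ _ _
  have e6 : HopfSix.W f g f = HopfSix.W f f g := HopfSix.W_comm23 _ _ _
  have e7 : HopfSix.W g f f = HopfSix.W f f g := HopfSix.W_comm13 _ _ _
  have key : 6 * HopfSix.W f g h = 48 * (HopfSix.pf (f + g + h) - HopfSix.pf (f + g) -
      HopfSix.pf (f + h) - HopfSix.pf (g + h) + HopfSix.pf f + HopfSix.pf g + HopfSix.pf h) := by
    linarith
  have poly : HopfSix.pf (f + g + h) - HopfSix.pf (f + g) -
      HopfSix.pf (f + h) - HopfSix.pf (g + h) + HopfSix.pf f + HopfSix.pf g + HopfSix.pf h =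
      G3 f g h - D3 f g h := by
    have s1 : Perm.sign (swap (0 : Fin 3) 1) = -1 := by decide
    have s2 : Perm.sign (swap (0 : Fin 3) 2) = -1 := by decide
    have s3 : Perm.sign (swap (1 : Fin 3) 2) = -1 := by decide
    have s4 : Perm.sign (swap (0 : Fin 3) 1 * swap 1 2) = 1 := by decide
    have s5 : Perm.sign (swap (1 : Fin 3) 2 * swap 0 1) = 1 := by decide
    have p10 : (swap (0 : Fin 3) 1) 0 = 1 := by decide
    have p11 : (swap (0 : Fin 3) 1) 1 = 0 := by decide
    have p12 : (swap (0 : Fin 3) 1) 2 = 2 := by decide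
    have p20 : (swap (0 : Fin 3) 2) 0 = 2 := by decide
    have p21 : (swap (0 : Fin 3) 2) 1 = 1 := by decide
    have p22 : (swap (0 : Fin 3) 2) 2 = 0 := by decide
    have p30 : (swap (1 : Fin 3) 2) 0 = 0 := by decide
    have p31 : (swap (1 : Fin 3) 2) 1 = 2 := by decide
    have p32 : (swap (1 : Fin 3) 2) 2 = 1 := by decide
    have p40 : (swap (0 : Fin 3) 1 * swap 1 2 : Perm (Fin 3)) 0 = 1 := by decide
    have p41 : (swap (0 : Fin 3) 1 * swap 1 2 : Perm (Fin 3)) 1 = 2 := by decide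
    have p42 : (swap (0 : Fin 3) 1 * swap 1 2 : Perm (Fin 3)) 2 = 0 := by decide
    have p50 : (swap (1 : Fin 3) 2 * swap 0 1 : Perm (Fin 3)) 0 = 2 := by decide
    have p51 : (swap (1 : Fin 3) 2 * swap 0 1 : Perm (Fin 3)) 1 = 0 := by decide
    have p52 : (swap (1 : Fin 3) 2 * swap 0 1 : Perm (Fin 3)) 2 = 1 := by decide
    unfold D3 G3 g0
    simp only [sum_perm3, s1, s2, s3, s4, s5, p10, p11, p12, p20, p21, p22, p30, p31, p32, p40,
      p41, p42, p50, p51, p52, Perm.coe_one, id_eq, Perm.sign_one]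
    simp only [Fin.sum_univ_three]
    simp only [fa, fv, fc, lo, hi, nx, pv, Matrix.cons_val_zero, Matrix.cons_val_one,
      Matrix.cons_val, HopfSix.pf, HopfSix.pf4, Matrix.add_apply]
    rw [hf 2 0, hf 5 3, hg 2 0, hg 5 3, hh 2 0, hh 5 3]
    push_cast
    ring
  rw [poly] at key
  linarith

/-- The ordered part of the polarised determinant. -/
noncomputable def d0 (f g h : Matrix (Fin 6) (Fin 6) ℝ) : ℝ :=
  ∑ π : Perm (Fin 3), ((Perm.sign π : ℤ) : ℝ) * (fv f 0 (π 0) * fv g 1 (π 1) * fv h 2 (π 2))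

theorem D3_eq (f g h : Matrix (Fin 6) (Fin 6) ℝ) :
    D3 f g h = d0 f g h + d0 f h g + d0 g f h + d0 g h f + d0 h f g + d0 h g f := by
  have s1 : Perm.sign (swap (0 : Fin 3) 1) = -1 := by decide
  have s2 : Perm.sign (swap (0 : Fin 3) 2) = -1 := by decide
  have s3 : Perm.sign (swap (1 : Fin 3) 2) = -1 := by decide
  have s4 : Perm.sign (swap (0 : Fin 3) 1 * swap 1 2) = 1 := by decide
  have s5 : Perm.sign (swap (1 : Fin 3) 2 * swap 0 1) = 1 := by decide
  have p10 : (swap (0 : Fin 3) 1) 0 = 1 := by decide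
  have p11 : (swap (0 : Fin 3) 1) 1 = 0 := by decide
  have p12 : (swap (0 : Fin 3) 1) 2 = 2 := by decide
  have p20 : (swap (0 : Fin 3) 2) 0 = 2 := by decide
  have p21 : (swap (0 : Fin 3) 2) 1 = 1 := by decide
  have p22 : (swap (0 : Fin 3) 2) 2 = 0 := by decide
  have p30 : (swap (1 : Fin 3) 2) 0 = 0 := by decide
  have p31 : (swap (1 : Fin 3) 2) 1 = 2 := by decide
  have p32 : (swap (1 : Fin 3) 2) 2 = 1 := by decide
  have p40 : (swap (0 : Fin 3) 1 * swap 1 2 : Perm (Fin 3)) 0 = 1 := by decide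
  have p41 : (swap (0 : Fin 3) 1 * swap 1 2 : Perm (Fin 3)) 1 = 2 := by decide
  have p42 : (swap (0 : Fin 3) 1 * swap 1 2 : Perm (Fin 3)) 2 = 0 := by decide
  have p50 : (swap (1 : Fin 3) 2 * swap 0 1 : Perm (Fin 3)) 0 = 2 := by decide
  have p51 : (swap (1 : Fin 3) 2 * swap 0 1 : Perm (Fin 3)) 1 = 0 := by decide
  have p52 : (swap (1 : Fin 3) 2 * swap 0 1 : Perm (Fin 3)) 2 = 1 := by decide
  unfold D3 d0
  simp only [sum_perm3, s1, s2, s3, s4, s5, p10, p11, p12, p20, p21, p22, p30, p31, p32, p40,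
    p41, p42, p50, p51, p52, Perm.coe_one, id_eq, Perm.sign_one]
  push_cast
  ring

section contraction

variable {ι : Type*} [Fintype ι] (s : ι → ℝ)

/-- Weighted triple sum. -/
def T3 (F : ι → ι → ι → ℝ) : ℝ := ∑ x, ∑ y, ∑ z, s x * s y * s z * F x y z

theorem T3_add (F G : ι → ι → ι → ℝ) : T3 s (fun x y z => F x y z + G x y z) =
    T3 s F + T3 s G := by
  unfold T3
  simp only [← Finset.sum_add_distrib]
  refine Finset.sum_congr rfl fun x _ => Finset.sum_congr rfl fun y _ =>
    Finset.sum_congr rfl fun z _ => ?_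
  ring

theorem T3_smul (c : ℝ) (F : ι → ι → ι → ℝ) : T3 s (fun x y z => c * F x y z) =
    c * T3 s F := by
  unfold T3
  simp only [Finset.mul_sum]
  refine Finset.sum_congr rfl fun x _ => Finset.sum_congr rfl fun y _ =>
    Finset.sum_congr rfl fun z _ => ?_
  ring

theorem T3_swap12 (F : ι → ι → ι → ℝ) : T3 s (fun x y z => F y x z) = T3 s F := by
  unfold T3
  rw [Finset.sum_comm]
  refine Finset.sum_congr rfl fun x _ => Finset.sum_congr rfl fun y _ =>
    Finset.sum_congr rfl fun z _ => ?_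
  ring

theorem T3_swap23 (F : ι → ι → ι → ℝ) : T3 s (fun x y z => F x z y) = T3 s F := by
  unfold T3
  refine Finset.sum_congr rfl fun x _ => ?_
  rw [Finset.sum_comm]
  refine Finset.sum_congr rfl fun y _ => Finset.sum_congr rfl fun z _ => ?_
  ring

theorem T3_sym (F g : ι → ι → ι → ℝ) (h12 : ∀ x y z, F y x z = F x y z)
    (h23 : ∀ x y z, F x z y = F x y z) :
    T3 s (fun x y z => F x y z *
      (g x y z + g x z y + g y x z + g y z x + g z x y + g z y x)) =
    6 * T3 s (fun x y z => F x y z * g x y z) := by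
  set K : ι → ι → ι → ℝ := fun x y z => F x y z * g x y z with hK
  set A := T3 s K with hA
  have c12 : T3 s (fun x y z => K y x z) = A := T3_swap12 s K
  have c23 : T3 s (fun x y z => K x z y) = A := T3_swap23 s K
  have c1 : T3 s (fun x y z => K z x y) = A := (T3_swap23 s (fun x y z => K y x z)).trans c12
  have c2 : T3 s (fun x y z => K y z x) = A := (T3_swap12 s (fun x y z => K x z y)).trans c23
  have c3 : T3 s (fun x y z => K z y x) = A := (T3_swap23 s (fun x y z => K y z x)).trans c2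
  have e1 : T3 s (fun x y z => F x y z * g x z y) = A := by
    rw [← c23]
    congr 1; funext x y z; simp only [hK, h23]
  have e2 : T3 s (fun x y z => F x y z * g y x z) = A := by
    rw [← c12]
    congr 1; funext x y z; simp only [hK]; rw [h12 x y z]
  have e3 : T3 s (fun x y z => F x y z * g y z x) = A := by
    rw [← c2]
    congr 1; funext x y z; simp only [hK]; rw [h23 y x z, h12 x y z]
  have e4 : T3 s (fun x y z => F x y z * g z x y) = A := by
    rw [← c1]
    congr 1; funext x y z; simp only [hK]; rw [h12 x z y, h23 x y z]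
  have e5 : T3 s (fun x y z => F x y z * g z y x) = A := by
    rw [← c3]
    congr 1; funext x y z; simp only [hK]; rw [h12 y z x, h23 y x z, h12 x y z]
  have : T3 s (fun x y z => F x y z *
      (g x y z + g x z y + g y x z + g y z x + g z x y + g z y x)) = T3 s K +
      T3 s (fun x y z => F x y z * g x z y) + T3 s (fun x y z => F x y z * g y x z) +
      T3 s (fun x y z => F x y z * g y z x) + T3 s (fun x y z => F x y z * g z x y) +
      T3 s (fun x y z => F x y z * g z y x) := by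
    rw [← T3_add, ← T3_add, ← T3_add, ← T3_add, ← T3_add]
    congr 1
    funext x y z
    simp only [hK]
    ring
  rw [this, e1, e2, e3, e4, e5, ← hA]
  ring

theorem contr {α β : Type*} [Fintype α] [Fintype β] (c : α → ℝ) (p q r : α → ι → ℝ)
    (c' : β → ℝ) (p' q' r' : β → ι → ℝ) :
    T3 s (fun x y z => (∑ a, c a * (p a x * q a y * r a z)) *
      (∑ b, c' b * (p' b x * q' b y * r' b z))) =
    ∑ a, ∑ b, c a * c' b * ((∑ x, s x * p a x * p' b x) * (∑ y, s y * q a y * q' b y) *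
      (∑ z, s z * r a z * r' b z)) := by
  have h1 : ∀ a b, c a * c' b * ((∑ x, s x * p a x * p' b x) * (∑ y, s y * q a y * q' b y) *
      (∑ z, s z * r a z * r' b z)) = ∑ x, ∑ y, ∑ z, s x * s y * s z *
        ((c a * (p a x * q a y * r a z)) * (c' b * (p' b x * q' b y * r' b z))) := by
    intro a b
    rw [Finset.sum_mul_sum, Finset.sum_mul, Finset.mul_sum]
    refine Finset.sum_congr rfl fun x _ => ?_
    rw [Finset.sum_mul_sum, Finset.mul_sum]
    refine Finset.sum_congr rfl fun y _ => ?_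
    rw [Finset.mul_sum]
    refine Finset.sum_congr rfl fun z _ => ?_
    ring
  simp only [h1]
  have h2 : ∀ G : α → β → ι → ℝ, ∑ a, ∑ b, ∑ x, G a b x = ∑ x, ∑ a, ∑ b, G a b x :=
    fun G => HopfSix.sum_comm3 G
  unfold T3
  rw [h2]
  refine Finset.sum_congr rfl fun x _ => ?_
  rw [h2]
  refine Finset.sum_congr rfl fun y _ => ?_
  rw [h2]
  refine Finset.sum_congr rfl fun z _ => ?_
  beta_reduce
  rw [Finset.sum_mul_sum, Finset.mul_sum]
  refine Finset.sum_congr rfl fun a _ => ?_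
  rw [Finset.mul_sum]

end contraction

end HopfKC
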