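import Mathlib

/-!
# Bounding a positive semidefinite matrix of determinant one by its second elementary
symmetric function
-/

open Matrix Finset

namespace HopfKC

theorem eig_bound {n : ℕ} (s : Fin (n + 1) → ℝ) (h0 : ∀ i, 0 ≤ s i) (h1 : ∏ i, s i = 1) {C : ℝ}
    (hC : ∀ i j, i ≠ j → s i * s j ≤ C) (i : Fin (n + 1)) : s i ^ n ≤ s i * C ^ n := by
  have hp : s i ^ n * ∏ j ∈ univ.erase i, s j ≤ C ^ n := by
    have e1 : s i ^ n * ∏ j ∈ univ.erase i, s j = ∏ j ∈ univ.erase i, (s i * s j) := by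
      rw [Finset.prod_mul_distrib, Finset.prod_const, Finset.card_erase_of_mem (mem_univ i),
        Finset.card_univ, Fintype.card_fin]
      rfl
    rw [e1]
    calc ∏ j ∈ univ.erase i, (s i * s j) ≤ ∏ j ∈ univ.erase i, C :=
          Finset.prod_le_prod (fun j _ => mul_nonneg (h0 i) (h0 j))
            (fun j hj => hC i j (Finset.ne_of_mem_erase hj).symm)
      _ = C ^ n := by
          rw [Finset.prod_const, Finset.card_erase_of_mem (mem_univ i),
            Finset.card_univ, Fintype.card_fin]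
          rfl
  have hq : s i * ∏ j ∈ univ.erase i, s j = 1 := by
    rw [Finset.mul_prod_erase univ s (mem_univ i)]; exact h1
  calc s i ^ n = s i * (s i ^ n * ∏ j ∈ univ.erase i, s j) := by
        rw [mul_left_comm, hq, mul_one]
    _ ≤ s i * C ^ n := mul_le_mul_of_nonneg_left hp (h0 i)

theorem eig_data {S : Matrix (Fin 6) (Fin 6) ℝ} (hS : S.PosSemidef) (hdet : S.det = 1) :
    ∃ s : Fin 6 → ℝ, (∀ i, 0 ≤ s i) ∧ ∏ i, s i = 1 ∧ S.trace = ∑ i, s i ∧
      S.trace ^ 2 - (S * S).trace =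
        ∑ p ∈ (univ : Finset (Fin 6)).offDiag, s p.1 * s p.2 := by
  have hH := hS.isHermitian
  set s := hH.eigenvalues with hs
  have h1 : ∏ i, s i = 1 := by
    have := hH.det_eq_prod_eigenvalues
    rw [hdet] at this
    simpa using this.symm
  have htr : S.trace = ∑ i, s i := by
    have := hH.trace_eq_sum_eigenvalues
    simpa using this
  have htr2 : (S * S).trace = ∑ i, s i ^ 2 := by
    have hsp := hH.spectral_theorem
    have h2 : S * S = Unitary.conjStarAlgAut ℝ _ hH.eigenvectorUnitary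
        (diagonal (RCLike.ofReal ∘ hH.eigenvalues) * diagonal (RCLike.ofReal ∘ hH.eigenvalues)) := by
      rw [map_mul, ← hsp]
    rw [h2, Unitary.conjStarAlgAut_apply, Matrix.trace_mul_cycle, ← mul_assoc,
      Unitary.coe_star_mul_self, one_mul, diagonal_mul_diagonal, trace_diagonal]
    refine Finset.sum_congr rfl fun i _ => ?_
    simp [hs, sq]
  refine ⟨s, fun i => hS.eigenvalues_nonneg i, h1, htr, ?_⟩
  rw [htr, htr2, sq, Finset.sum_mul_sum, ← Finset.sum_product', ← Finset.diag_union_offDiag,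
    Finset.sum_union (Finset.disjoint_diag_offDiag _), Finset.sum_diag]
  simp only [sq]
  ring

theorem trace_bound {S : Matrix (Fin 6) (Fin 6) ℝ} (hS : S.PosSemidef) (hdet : S.det = 1) {C : ℝ}
    (hC : 1 ≤ C) (h : S.trace ^ 2 - (S * S).trace ≤ C) : S.trace ≤ 6 * C ^ 5 := by
  obtain ⟨s, h0, h1, htr, e⟩ := eig_data hS hdet
  have hpair : ∀ i j, i ≠ j → s i * s j ≤ C := by
    intro i j hij
    have hm : (i, j) ∈ (univ : Finset (Fin 6)).offDiag := by simp [hij]
    have := Finset.single_le_sum (f := fun p : Fin 6 × Fin 6 => s p.1 * s p.2)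
      (fun p _ => mul_nonneg (h0 p.1) (h0 p.2)) hm
    rw [← e] at this
    exact this.trans h
  have hb : ∀ i, s i ≤ C ^ 5 := by
    intro i
    rcases le_or_gt (s i) 1 with h2 | h2
    · exact h2.trans (one_le_pow₀ hC)
    · have h3 := eig_bound s h0 h1 hpair i
      have h4 : s i ^ 4 ≤ C ^ 5 := by
        have : s i * s i ^ 4 ≤ s i * C ^ 5 := by
          calc s i * s i ^ 4 = s i ^ 5 := by ring
            _ ≤ _ := h3
        exact le_of_mul_le_mul_left this (by linarith)
      calc s i ≤ s i ^ 4 := le_self_pow₀ h2.le (by norm_num)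
        _ ≤ _ := h4
  rw [htr]
  calc ∑ i, s i ≤ ∑ _i : Fin 6, C ^ 5 := Finset.sum_le_sum fun i _ => hb i
    _ = 6 * C ^ 5 := by simp

theorem e2_pos {S : Matrix (Fin 6) (Fin 6) ℝ} (hS : S.PosSemidef) (hdet : S.det = 1) :
    0 < S.trace ^ 2 - (S * S).trace := by
  obtain ⟨s, h0, h1, htr, e⟩ := eig_data hS hdet
  have hpos : ∀ i, 0 < s i := by
    intro i
    rcases (h0 i).eq_or_lt with h | h
    · exfalso
      have : ∏ i, s i = 0 := Finset.prod_eq_zero (mem_univ i) h.symm
      rw [this] at h1; norm_num at h1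
    · exact h
  rw [e]
  exact Finset.sum_pos (fun p _ => mul_pos (hpos p.1) (hpos p.2)) ⟨(0, 1), by simp⟩

end HopfKC
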