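import Pool.Agent.Lib.H69.Hopf.Sym
import Pool.Agent.Lib.HopfSix.Max
import Pool.Agent.Lib.H87.HopfKC.Bound

/-!
# Einstein gauge for curvature tensors of positive sectional curvature in dimension six
-/

open Matrix Finset
open Pool.Agent.H69Hopf

namespace HopfKC

/-- The contraction of a curvature array with two matrices. -/
def Phi {N : ℕ} (R : Arr N) (S T : Matrix (Fin N) (Fin N) ℝ) : ℝ :=
  ∑ a, ∑ b, ∑ c, ∑ d, R a b c d * S a c * T b d

/-- Ricci contraction. -/
def ricc {N : ℕ} (R : Arr N) (i j : Fin N) : ℝ := ∑ k, R i k j k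

section
variable {N : ℕ} (R : Arr N)

theorem Phi_quad (S T : Matrix (Fin N) (Fin N) ℝ) :
    Phi R S T = ∑ q : Fin N × Fin N × Fin N × Fin N,
      R q.1 q.2.1 q.2.2.1 q.2.2.2 * S q.1 q.2.2.1 * T q.2.1 q.2.2.2 := by
  unfold Phi
  simp only [Fintype.sum_prod_type]

theorem Phi_add_left (S S' T : Matrix (Fin N) (Fin N) ℝ) :
    Phi R (S + S') T = Phi R S T + Phi R S' T := by
  rw [Phi_quad, Phi_quad, Phi_quad, ← Finset.sum_add_distrib]
  refine Finset.sum_congr rfl fun q _ => ?_
  rw [Matrix.add_apply]; ring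

theorem Phi_add_right (S T T' : Matrix (Fin N) (Fin N) ℝ) :
    Phi R S (T + T') = Phi R S T + Phi R S T' := by
  rw [Phi_quad, Phi_quad, Phi_quad, ← Finset.sum_add_distrib]
  refine Finset.sum_congr rfl fun q _ => ?_
  rw [Matrix.add_apply]; ring

theorem Phi_smul_left (t : ℝ) (S T : Matrix (Fin N) (Fin N) ℝ) :
    Phi R (t • S) T = t * Phi R S T := by
  rw [Phi_quad, Phi_quad, Finset.mul_sum]
  refine Finset.sum_congr rfl fun q _ => ?_
  rw [Matrix.smul_apply, smul_eq_mul]; ring

theorem Phi_smul_right (t : ℝ) (S T : Matrix (Fin N) (Fin N) ℝ) :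
    Phi R S (t • T) = t * Phi R S T := by
  rw [Phi_quad, Phi_quad, Finset.mul_sum]
  refine Finset.sum_congr rfl fun q _ => ?_
  rw [Matrix.smul_apply, smul_eq_mul]; ring

theorem Phi_comm {R : Arr N} (h : IsAlgCurv R) (S T : Matrix (Fin N) (Fin N) ℝ) :
    Phi R S T = Phi R T S := by
  rw [Phi_quad, Phi_quad]
  let e : (Fin N × Fin N × Fin N × Fin N) ≃ (Fin N × Fin N × Fin N × Fin N) :=
    { toFun := fun q => (q.2.1, q.1, q.2.2.2, q.2.2.1)
      invFun := fun q => (q.2.1, q.1, q.2.2.2, q.2.2.1)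
      left_inv := fun q => rfl
      right_inv := fun q => rfl }
  rw [← Equiv.sum_comp e]
  refine Finset.sum_congr rfl fun q _ => ?_
  simp only [e, Equiv.coe_fn_mk]
  have h1 : R q.2.1 q.1 q.2.2.2 q.2.2.1 = R q.1 q.2.1 q.2.2.1 q.2.2.2 := by
    rw [h.skew, h.pair, h.skew, h.pair]; ring
  rw [h1]; ring

theorem Phi_one_right (S : Matrix (Fin N) (Fin N) ℝ) :
    Phi R S 1 = ∑ a, ∑ c, ricc R a c * S a c := by
  unfold Phi ricc
  refine Finset.sum_congr rfl fun a _ => ?_
  rw [Finset.sum_comm]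
  refine Finset.sum_congr rfl fun c _ => ?_
  rw [Finset.sum_mul]
  refine Finset.sum_congr rfl fun b _ => ?_
  rw [Finset.sum_eq_single b]
  · rw [Matrix.one_apply_eq, mul_one]
  · intro d _ hd
    rw [Matrix.one_apply_ne (fun h => hd h.symm), mul_zero]
  · simp

/-- `Phi` on a Gram matrix is the sum of the curvatures of the frame. -/
theorem Phi_gram {M : ℕ} (g : Fin M → (Fin N → ℝ)) :
    Phi R ((Matrix.of g)ᵀ * Matrix.of g) ((Matrix.of g)ᵀ * Matrix.of g) =
      ∑ i, ∑ j, ev R (g i) (g j) (g i) (g j) := by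
  simp only [ev_quad]
  rw [Phi_quad]
  have h1 : ∀ q : Fin N × Fin N × Fin N × Fin N,
      R q.1 q.2.1 q.2.2.1 q.2.2.2 * ((Matrix.of g)ᵀ * Matrix.of g) q.1 q.2.2.1 *
        ((Matrix.of g)ᵀ * Matrix.of g) q.2.1 q.2.2.2 =
      ∑ i, ∑ j, R q.1 q.2.1 q.2.2.1 q.2.2.2 * g i q.1 * g j q.2.1 * g i q.2.2.1 *
        g j q.2.2.2 := by
    intro q
    rw [Matrix.mul_apply, Matrix.mul_apply, mul_assoc, Finset.sum_mul_sum, Finset.mul_sum]
    refine Finset.sum_congr rfl fun i _ => ?_
    rw [Finset.mul_sum]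
    refine Finset.sum_congr rfl fun j _ => ?_
    simp only [Matrix.transpose_apply, Matrix.of_apply]
    ring
  rw [Finset.sum_congr rfl fun q _ => h1 q, Finset.sum_comm]
  refine Finset.sum_congr rfl fun i _ => ?_
  rw [Finset.sum_comm]

theorem Phi_add_smul_arr (Q : Arr N) (t : ℝ) (S T : Matrix (Fin N) (Fin N) ℝ) :
    Phi (fun i j k l => R i j k l + t * Q i j k l) S T = Phi R S T + t * Phi Q S T := by
  rw [Phi_quad, Phi_quad, Phi_quad, Finset.mul_sum, ← Finset.sum_add_distrib]
  refine Finset.sum_congr rfl fun q _ => ?_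
  ring

theorem Phi_idA (S : Matrix (Fin N) (Fin N) ℝ) :
    Phi (idA N) S S = S.trace ^ 2 - (S * S).trace := by
  have h1 : ∀ a b c d : Fin N, idA N a b c d * S a c * S b d =
      (if a = c then (if b = d then S a a * S b b else 0) else 0) -
      (if a = d then (if b = c then S a b * S b a else 0) else 0) := by
    intro a b c d
    unfold idA
    by_cases h1 : a = c
    · subst h1
      by_cases h2 : b = d
      · subst h2
        by_cases h3 : a = b
        · subst h3; simp
        · simp [h3]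
      · by_cases h3 : a = d
        · subst h3; simp [h2]
        · simp [h2, h3]
    · by_cases h2 : a = d
      · subst h2
        by_cases h3 : b = c
        · subst h3; simp [h1]
        · simp [h1, h3]
      · simp [h1, h2]
  unfold Phi
  simp only [h1, Finset.sum_sub_distrib]
  have e1 : (∑ a, ∑ b, ∑ c, ∑ d, (if a = c then (if b = d then S a a * S b b else 0) else 0)) =
      S.trace ^ 2 := by
    rw [Matrix.trace, sq, Finset.sum_mul_sum]
    refine Finset.sum_congr rfl fun a _ => Finset.sum_congr rfl fun b _ => ?_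
    rw [Finset.sum_eq_single a]
    · rw [Finset.sum_eq_single b]
      · simp
      · intro d _ hd
        rw [if_pos rfl, if_neg (fun h => hd h.symm)]
      · simp
    · intro c _ hc
      refine Finset.sum_eq_zero fun d _ => ?_
      rw [if_neg (fun h => hc h.symm)]
    · simp
  have e2 : (∑ a, ∑ b, ∑ c, ∑ d, (if a = d then (if b = c then S a b * S b a else 0) else 0)) =
      (S * S).trace := by
    rw [Matrix.trace]
    refine Finset.sum_congr rfl fun a _ => ?_
    rw [Matrix.diag_apply, Matrix.mul_apply]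
    refine Finset.sum_congr rfl fun b _ => ?_
    rw [Finset.sum_eq_single b]
    · rw [Finset.sum_eq_single a]
      · simp
      · intro d _ hd
        rw [if_neg (fun h => hd h.symm)]
      · simp
    · intro c _ hc
      refine Finset.sum_eq_zero fun d _ => ?_
      by_cases h : a = d
      · rw [if_pos h, if_neg (fun h => hc h.symm)]
      · rw [if_neg h]
    · simp
  rw [e1, e2]

theorem continuous_Phi_gram :
    Continuous fun g : Matrix (Fin N) (Fin N) ℝ => Phi R (gᵀ * g) (gᵀ * g) := by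
  unfold Phi
  refine continuous_finsetSum _ fun a _ => continuous_finsetSum _ fun b _ =>
    continuous_finsetSum _ fun c _ => continuous_finsetSum _ fun d _ => ?_
  have h : Continuous fun g : Matrix (Fin N) (Fin N) ℝ => gᵀ * g :=
    (continuous_id.matrix_transpose).matrix_mul continuous_id
  exact (continuous_const.mul (h.matrix_elem a c)).mul (h.matrix_elem b d)

end

/-- The total curvature of a frame of determinant one attains its minimum. -/
theorem exists_min (R : Arr 6) {ε : ℝ} (hε : 0 < ε) (hsec : ∀ x y, 0 ≤ ev R x y x y) :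
    ∃ g : Matrix (Fin 6) (Fin 6) ℝ, g.det = 1 ∧ ∀ h : Matrix (Fin 6) (Fin 6) ℝ, h.det = 1 →
      Phi (fun i j k l => R i j k l + ε * idA 6 i j k l) (gᵀ * g) (gᵀ * g) ≤
      Phi (fun i j k l => R i j k l + ε * idA 6 i j k l) (hᵀ * h) (hᵀ * h) := by
  set Q : Arr 6 := fun i j k l => R i j k l + ε * idA 6 i j k l with hQ
  set f : Matrix (Fin 6) (Fin 6) ℝ → ℝ := fun g => Phi Q (gᵀ * g) (gᵀ * g) with hf
  have hfc : Continuous f := continuous_Phi_gram Q
  set C : ℝ := max 1 (f 1 / ε) with hC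
  set M : ℝ := 6 * C ^ 5 + 1 with hM
  have hC1 : 1 ≤ C := le_max_left _ _
  have hbound : ∀ g : Matrix (Fin 6) (Fin 6) ℝ, g.det = 1 → f g ≤ f 1 →
      ∀ i j, g i j ∈ Set.Icc (-M) M := by
    intro g hg hfg i j
    have hpsd : (gᵀ * g).PosSemidef := by
      have := Matrix.posSemidef_conjTranspose_mul_self g
      rwa [Matrix.conjTranspose_eq_transpose_of_trivial] at this
    have hdet : (gᵀ * g).det = 1 := by rw [Matrix.det_mul, Matrix.det_transpose, hg, one_mul]
    have hfe : f g = (∑ i, ∑ j, ev R (g i) (g j) (g i) (g j)) +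
        ε * ((gᵀ * g).trace ^ 2 - ((gᵀ * g) * (gᵀ * g)).trace) := by
      have h1 := Phi_gram R (fun i => g i)
      simp only [hf, hQ]
      rw [Phi_add_smul_arr, Phi_idA]
      congr 1
    have hnn : 0 ≤ ∑ i, ∑ j, ev R (g i) (g j) (g i) (g j) :=
      Finset.sum_nonneg fun i _ => Finset.sum_nonneg fun j _ => hsec _ _
    have hle : (gᵀ * g).trace ^ 2 - ((gᵀ * g) * (gᵀ * g)).trace ≤ C := by
      refine le_trans ?_ (le_max_right _ _)
      rw [le_div_iff₀ hε]
      linarith
    have htr := trace_bound hpsd hdet hC1 hle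
    have hjj : g i j ^ 2 ≤ (gᵀ * g).trace := by
      have h2 : (gᵀ * g) j j = ∑ k, g k j ^ 2 := by
        rw [Matrix.mul_apply]
        refine Finset.sum_congr rfl fun k _ => ?_
        rw [Matrix.transpose_apply, sq]
      have h3 : g i j ^ 2 ≤ (gᵀ * g) j j := by
        rw [h2]
        exact Finset.single_le_sum (f := fun k => g k j ^ 2) (fun k _ => sq_nonneg _) (mem_univ i)
      have h4 : (gᵀ * g) j j ≤ (gᵀ * g).trace := by
        rw [Matrix.trace]
        refine Finset.single_le_sum (f := fun k => (gᵀ * g).diag k) (fun k _ => ?_) (mem_univ j)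
        rw [Matrix.diag_apply, Matrix.mul_apply]
        refine Finset.sum_nonneg fun l _ => ?_
        rw [Matrix.transpose_apply]
        exact mul_self_nonneg _
      exact h3.trans h4
    have h5 : |g i j| ≤ M := by
      have h6 : |g i j| ^ 2 ≤ 6 * C ^ 5 := by rw [sq_abs]; exact hjj.trans htr
      nlinarith [abs_nonneg (g i j), sq_nonneg (|g i j| - 1)]
    exact abs_le.mp h5
  set K : Set (Matrix (Fin 6) (Fin 6) ℝ) := {g | g.det = 1 ∧ f g ≤ f 1} with hK
  have hKc : IsClosed K :=
    (isClosed_eq (continuous_id.matrix_det) continuous_const).inter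
      (isClosed_le hfc continuous_const)
  have hbox : IsCompact {g : Matrix (Fin 6) (Fin 6) ℝ | ∀ i, g i ∈ {r : Fin 6 → ℝ | ∀ j, r j ∈
      Set.Icc (-M) M}} :=
    isCompact_pi_infinite fun _ => isCompact_pi_infinite fun _ => isCompact_Icc
  have hKcomp : IsCompact K := hbox.of_isClosed_subset hKc fun g hg i j => hbound g hg.1 hg.2 i j
  have hone : (1 : Matrix (Fin 6) (Fin 6) ℝ) ∈ K := ⟨Matrix.det_one, le_rfl⟩
  obtain ⟨g, hgK, hg⟩ := hKcomp.exists_isMinOn ⟨1, hone⟩ hfc.continuousOn
  refine ⟨g, hgK.1, fun h hh => ?_⟩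
  by_cases hle : f h ≤ f 1
  · exact hg (show h ∈ K from ⟨hh, hle⟩)
  · exact (hg hone).trans (not_le.mp hle).le

theorem det_one_add_smul_vecMulVec (v w : Fin 6 → ℝ) (hvw : w ⬝ᵥ v = 0) (t : ℝ) :
    (1 + t • vecMulVec v w : Matrix (Fin 6) (Fin 6) ℝ).det = 1 := by
  have h1 : t • vecMulVec v w = replicateCol Unit (t • v) * replicateRow Unit w := by
    ext i j
    simp [vecMulVec_apply, Matrix.mul_apply]
    ring
  rw [h1, Matrix.det_one_add_replicateCol_mul_replicateRow, dotProduct_smul, hvw, smul_zero,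
    add_zero]

theorem ricc_symm {N : ℕ} {R : Arr N} (hA : IsAlgCurv R) (i j : Fin N) :
    ricc R i j = ricc R j i := by
  unfold ricc
  exact Finset.sum_congr rfl fun k _ => hA.pair _ _ _ _

theorem var {R : Arr 6} (hA : IsAlgCurv R)
    (hmin : ∀ h : Matrix (Fin 6) (Fin 6) ℝ, h.det = 1 → Phi R 1 1 ≤ Phi R (hᵀ * h) (hᵀ * h))
    (v w : Fin 6 → ℝ) (hvw : w ⬝ᵥ v = 0) : ∑ a, ∑ c, ricc R a c * (v a * w c) = 0 := by
  set X : Matrix (Fin 6) (Fin 6) ℝ := vecMulVec v w with hX
  set H := X + Xᵀ with hH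
  set K := Xᵀ * X with hK
  have hexp : ∀ t : ℝ, Phi R ((1 + t • X)ᵀ * (1 + t • X)) ((1 + t • X)ᵀ * (1 + t • X)) =
      Phi R 1 1 + t * (2 * Phi R H 1 + t * (Phi R H H + 2 * Phi R K 1 + 2 * t * Phi R H K +
        t ^ 2 * Phi R K K)) := by
    intro t
    have e : (1 + t • X)ᵀ * (1 + t • X) = 1 + t • H + t ^ 2 • K := by
      rw [hH, hK, Matrix.transpose_add, Matrix.transpose_one, Matrix.transpose_smul,
        Matrix.add_mul, Matrix.mul_add, Matrix.mul_add, Matrix.one_mul, Matrix.mul_one,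
        Matrix.one_mul, Matrix.smul_mul, Matrix.mul_smul, smul_smul, smul_add, sq]
      abel
    rw [e]
    simp only [Phi_add_left, Phi_add_right, Phi_smul_left, Phi_smul_right]
    rw [Phi_comm hA 1 H, Phi_comm hA 1 K, Phi_comm hA K H]
    ring
  have hz : 2 * Phi R H 1 = 0 := by
    refine HopfSix.lin_zero (2 * Phi R H 1) (fun t => Phi R H H + 2 * Phi R K 1 +
      2 * t * Phi R H K + t ^ 2 * Phi R K K) (by fun_prop) (fun t => ?_)
    have h1 := hmin (1 + t • X) (det_one_add_smul_vecMulVec v w hvw t)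
    rw [hexp t] at h1
    linarith
  have h2 : Phi R H 1 = 2 * ∑ a, ∑ c, ricc R a c * (v a * w c) := by
    rw [Phi_one_right]
    have h3 : ∀ a c, ricc R a c * H a c = ricc R a c * (v a * w c) +
        ricc R a c * (v c * w a) := by
      intro a c
      rw [hH, Matrix.add_apply, Matrix.transpose_apply, hX, vecMulVec_apply, vecMulVec_apply]
      ring
    simp only [h3, Finset.sum_add_distrib]
    have h4 : ∑ a, ∑ c, ricc R a c * (v c * w a) = ∑ a, ∑ c, ricc R a c * (v a * w c) := by
      rw [Finset.sum_comm]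
      refine Finset.sum_congr rfl fun a _ => Finset.sum_congr rfl fun c _ => ?_
      rw [ricc_symm hA c a]
    rw [h4]; ring
  linarith

theorem einstein_of_min {R : Arr 6} (hA : IsAlgCurv R)
    (hmin : ∀ h : Matrix (Fin 6) (Fin 6) ℝ, h.det = 1 → Phi R 1 1 ≤ Phi R (hᵀ * h) (hᵀ * h)) :
    ∀ i j, ricc R i j = if i = j then ricc R 0 0 else 0 := by
  have hform : ∀ i j k l : Fin 6, ∑ a, ∑ c, ricc R a c *
      ((Pi.single i 1 : Fin 6 → ℝ) a * (Pi.single j 1 : Fin 6 → ℝ) c) = ricc R i j := by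
    intro i j _ _
    rw [Finset.sum_eq_single i]
    · rw [Finset.sum_eq_single j]
      · simp
      · intro c _ hc; simp [Pi.single_eq_of_ne hc]
      · simp
    · intro a _ ha; simp [Pi.single_eq_of_ne ha]
    · simp
  have hoff : ∀ i j, i ≠ j → ricc R i j = 0 := by
    intro i j hij
    have h := var hA hmin (Pi.single i 1) (Pi.single j 1) (by simp [hij.symm, hij])
    rw [hform i j 0 0] at h
    exact h
  have hdiag : ∀ i j, ricc R i i = ricc R j j := by
    intro i j
    by_cases hij : i = j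
    · rw [hij]
    · have h := var hA hmin (Pi.single i 1 + Pi.single j 1) (Pi.single i 1 - Pi.single j 1) (by
        simp [sub_dotProduct, hij, Ne.symm hij, Pi.single_eq_of_ne hij,
          Pi.single_eq_of_ne (Ne.symm hij)])
      have h2 : ∀ a c, ricc R a c * ((Pi.single i 1 + Pi.single j 1 : Fin 6 → ℝ) a *
          (Pi.single i 1 - Pi.single j 1 : Fin 6 → ℝ) c) =
          ricc R a c * ((Pi.single i 1 : Fin 6 → ℝ) a * (Pi.single i 1 : Fin 6 → ℝ) c) -
          ricc R a c * ((Pi.single i 1 : Fin 6 → ℝ) a * (Pi.single j 1 : Fin 6 → ℝ) c) +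
          (ricc R a c * ((Pi.single j 1 : Fin 6 → ℝ) a * (Pi.single i 1 : Fin 6 → ℝ) c) -
          ricc R a c * ((Pi.single j 1 : Fin 6 → ℝ) a * (Pi.single j 1 : Fin 6 → ℝ) c)) := by
        intro a c
        rw [Pi.add_apply, Pi.sub_apply]; ring
      simp only [h2, Finset.sum_add_distrib, Finset.sum_sub_distrib] at h
      rw [hform i i 0 0, hform i j 0 0, hform j i 0 0, hform j j 0 0, hoff i j hij,
        hoff j i (Ne.symm hij)] at h
      linarith
  intro i j
  split_ifs with h
  · rw [h]; exact hdiag j 0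
  · exact hoff i j h

end HopfKC
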